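import Mathlib
import Pool.Agent.Q235.FL.Link

set_option autoImplicit false

/-! transfer matrices: reversal and parity -/

namespace Pool.Agent.Q235.FI

open Matrix Polynomial
open FL (mon mon_det mulE mon_rec)

noncomputable section

variable {R : Type*} [CommRing R]

theorem mon_congr {v w : ℕ → R} (x : R) (n : ℕ) (h : ∀ j < n, v j = w j) :
    mon v x n = mon w x n := by
  induction n with
  | zero => rfl
  | succ n ih =>
    rw [mon, mon, ih fun j hj => h j (by omega), h n (by omega)]

theorem mon_right (v : ℕ → R) (x : R) (n : ℕ) :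
    mon v x (n + 1) = mon (fun j => v (j + 1)) x n * !![x - v 0, -1; 1, 0] := by
  induction n with
  | zero => simp [mon]
  | succ n ih =>
    rw [mon, ih, mon, Matrix.mul_assoc]

theorem mon_neg (v : ℕ → R) (x : R) (n : ℕ) : ∀ w : ℕ → R, (∀ j < n, w j = - v (n - 1 - j)) →
    mon w (-x) n = (-1 : R) ^ n • (mon v x n)ᵀ := by
  induction n with
  | zero => intro w _; simp [mon]
  | succ n ih =>
    intro w hw
    rw [mon_right, ih (fun j => w (j + 1)) (fun j hj => by
      show w (j + 1) = _
      rw [hw (j + 1) (by omega)]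
      congr 2
      omega)]
    have h0 : w 0 = - v n := by
      rw [hw 0 (by omega)]
      congr 2
    have h1 : !![-x - w 0, -1; 1, 0] = -(!![x - v n, -1; 1, 0])ᵀ := by
      rw [h0]
      ext i j
      fin_cases i <;> fin_cases j <;> simp
      ring
    rw [h1, mon, Matrix.transpose_mul, Matrix.smul_mul, Matrix.mul_neg, smul_neg, ← neg_smul,
      pow_succ]
    congr 1
    ring

theorem mon_map {S : Type*} [CommRing S] (f : R →+* S) (v : ℕ → R) (x : R) (n : ℕ) :
    mon (fun j => f (v j)) (f x) n = (mon v x n).map f := by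
  induction n with
  | zero => simp [mon]
  | succ n ih =>
    rw [mon, mon, ih, Matrix.map_mul]
    congr 1
    ext i j
    fin_cases i <;> fin_cases j <;> simp

/-- the discriminant as a polynomial -/
def DD (v : ℕ → R) (q : ℕ) : R[X] := (mon (fun j => C (v j)) X q).trace

theorem trace_map {S : Type*} [CommRing S] (f : R →+* S) (M : Matrix (Fin 2) (Fin 2) R) :
    (M.map f).trace = f M.trace := by
  rw [trace_fin_two, trace_fin_two]
  simp

theorem eval_DD (v : ℕ → R) (q : ℕ) (x : R) : (DD v q).eval x = (mon v x q).trace := by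
  unfold DD
  rw [← coe_evalRingHom, ← trace_map, ← mon_map]
  simp

theorem map_DD {S : Type*} [CommRing S] (f : R →+* S) (v : ℕ → R) (q : ℕ) :
    (DD v q).map f = DD (fun j => f (v j)) q := by
  unfold DD
  rw [← coe_mapRingHom, ← trace_map, ← mon_map]
  simp

theorem DD_parity (v : ℕ → R) (q : ℕ) (hv : ∀ j < q, v j = - v (q - 1 - j)) :
    (DD v q).comp (-X) = (-1) ^ q * DD v q := by
  have h1 := mon_neg (fun j => C (v j)) X q (fun j => C (v j)) (fun j hj => by
    show C (v j) = - C (v (q - 1 - j))
    rw [hv j hj, map_neg])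
  have h2 : (DD v q).comp (-X) = (mon (fun j => C (v j)) (-X) q).trace := by
    have h3 := mon_map (compRingHom (-X : R[X])) (fun j => C (v j)) X q
    simp only [coe_compRingHom_apply, C_comp, X_comp] at h3
    rw [h3, trace_map]
    rfl
  rw [h2, h1, trace_smul, trace_transpose, smul_eq_mul]
  rfl

theorem coeff_parity [CharZero R] [NoZeroDivisors R] (v : ℕ → R) (q : ℕ)
    (hv : ∀ j < q, v j = - v (q - 1 - j)) (i : ℕ) (hi : Odd (q + i)) : (DD v q).coeff i = 0 := by
  have h1 : ((DD v q).comp (-X)).coeff i = ((-1) ^ q * DD v q).coeff i := by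
    rw [DD_parity v q hv]
  have h2 : ((DD v q).comp (-X)).coeff i = (-1) ^ i * (DD v q).coeff i := by
    have e : (-X : R[X]) = C (-1) * X := by simp
    rw [e, Polynomial.comp_C_mul_X_coeff, mul_comm]
  have h3 : ((-1) ^ q * DD v q).coeff i = (-1) ^ q * (DD v q).coeff i := by
    have : ((-1 : R[X])) ^ q = C ((-1) ^ q) := by simp
    rw [this, coeff_C_mul]
  rw [h2, h3] at h1
  have h4 : (-1 : R) ^ q * (-1) ^ i = -1 := by
    rw [← pow_add]
    exact hi.neg_one_pow
  have h5 : (-1 : R) ^ q * (-1) ^ q = 1 := by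
    rw [← pow_add]
    exact (Even.add_self q).neg_one_pow
  have h6 : (2 : R) * (DD v q).coeff i = 0 := by
    linear_combination (DD v q).coeff i * h4 - (DD v q).coeff i * h5 - (-1 : R) ^ q * h1
  rcases mul_eq_zero.1 h6 with h | h
  · exact absurd h two_ne_zero
  · exact h

end

end Pool.Agent.Q235.FI
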