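import Mathlib
import Pool.Agent.Q235.FI.Mon

set_option autoImplicit false

/-! the second order expansion of the discriminant at the periodic and antiperiodic energies -/

namespace Pool.Agent.Q235.FI

open Matrix Polynomial
open FL (mon mon_det mulE mon_rec)

noncomputable section

variable {R : Type*} [CommRing R]

/-- the product in the interaction picture -/
def QQ (w w' : R) (b : ℕ → R) : ℕ → Matrix (Fin 2) (Fin 2) R
  | 0 => 1
  | n + 1 => !![1 - b n, -(b n * w' ^ (2 * n + 2)); b n * w ^ (2 * n + 2), 1 + b n] * QQ w w' b n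

theorem mon_QQ {w w' e : R} (hw : w * w' = 1) (he : (w - w') * e = 1) (v : ℕ → R) (n : ℕ) :
    mon v (w + w') n * !![w, w'; 1, 1] =
      !![w, w'; 1, 1] * (!![w ^ n, 0; 0, w' ^ n] * QQ w w' (fun j => e * v j) n) := by
  induction n with
  | zero =>
    have : (!![w ^ 0, 0; 0, w' ^ 0] : Matrix (Fin 2) (Fin 2) R) = 1 := by
      ext i j; fin_cases i <;> fin_cases j <;> simp
    rw [this]
    simp [mon, QQ]
  | succ n ih =>
    rw [mon, Matrix.mul_assoc, ih, QQ]
    rw [← Matrix.mul_assoc, ← Matrix.mul_assoc, ← Matrix.mul_assoc, ← Matrix.mul_assoc]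
    congr 1
    have hpow : w ^ n * w' ^ n = 1 := by rw [← mul_pow, hw, one_pow]
    have e1 : w * w ^ (2 * n + 2) * w' ^ n * w' = w * w * w ^ n := by
      have : w ^ (2 * n + 2) = w ^ n * w ^ n * w * w := by ring
      rw [this]
      linear_combination (w * w * w * w' * w ^ n) * hpow + w * w * w ^ n * hw
    have e2 : w' * w' ^ (2 * n + 2) * w ^ n * w = w' * w' * w' ^ n := by
      have : w' ^ (2 * n + 2) = w' ^ n * w' ^ n * w' * w' := by ring
      rw [this]
      linear_combination (w' * w' * w' * w * w' ^ n) * hpow + w' * w' * w' ^ n * hw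
    have e3 : w' ^ (n + 1) * w ^ (2 * n + 2) = w ^ (n + 1) := by
      have : w ^ (2 * n + 2) = w ^ (n + 1) * w ^ (n + 1) := by ring
      rw [this]
      have h1 : w ^ (n + 1) * w' ^ (n + 1) = 1 := by rw [← mul_pow, hw, one_pow]
      linear_combination w ^ (n + 1) * h1
    have e4 : w ^ (n + 1) * w' ^ (2 * n + 2) = w' ^ (n + 1) := by
      have : w' ^ (2 * n + 2) = w' ^ (n + 1) * w' ^ (n + 1) := by ring
      rw [this]
      have h1 : w ^ (n + 1) * w' ^ (n + 1) = 1 := by rw [← mul_pow, hw, one_pow]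
      linear_combination w' ^ (n + 1) * h1
    simp only [Matrix.mul_fin_two, mul_zero, add_zero, zero_mul, zero_add, mul_one, one_mul]
    ext i j
    fin_cases i <;> fin_cases j
    · show ((w + w' - v n) * w + -1) * w ^ n =
        w * w ^ (n + 1) * (1 - e * v n) + w' * w' ^ (n + 1) * (e * v n * w ^ (2 * n + 2))
      have e5 : w' * w' ^ (n + 1) * (e * v n * w ^ (2 * n + 2)) = w' * (e * v n) * w ^ (n + 1) := by
        linear_combination w' * e * v n * e3
      rw [e5]
      have e6 : w ^ (n + 1) = w ^ n * w := pow_succ _ _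
      rw [e6]
      linear_combination w ^ n * hw + v n * w * w ^ n * he
    · show ((w + w' - v n) * w' + -1) * w' ^ n =
        w * w ^ (n + 1) * -(e * v n * w' ^ (2 * n + 2)) + w' * w' ^ (n + 1) * (1 + e * v n)
      have e5 : w * w ^ (n + 1) * -(e * v n * w' ^ (2 * n + 2)) =
          - (w * (e * v n) * w' ^ (n + 1)) := by
        linear_combination - w * e * v n * e4
      rw [e5]
      have e6 : w' ^ (n + 1) = w' ^ n * w' := pow_succ _ _
      rw [e6]
      linear_combination w' ^ n * hw + v n * w' * w' ^ n * he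
    · show w * w ^ n = w ^ (n + 1) * (1 - e * v n) + w' ^ (n + 1) * (e * v n * w ^ (2 * n + 2))
      linear_combination - e * v n * e3
    · show w' * w' ^ n = w ^ (n + 1) * -(e * v n * w' ^ (2 * n + 2)) + w' ^ (n + 1) * (1 + e * v n)
      linear_combination e * v n * e4

theorem trace_QQ {w w' e ς : R} (hw : w * w' = 1) (he : (w - w') * e = 1) (v : ℕ → R) (q : ℕ)
    (h1 : w ^ q = ς) (h2 : w' ^ q = ς) :
    (mon v (w + w') q).trace = ς * (QQ w w' (fun j => e * v j) q).trace := by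
  have h := mon_QQ hw he v q
  rw [h1, h2] at h
  set P : Matrix (Fin 2) (Fin 2) R := !![w, w'; 1, 1] with hP
  set Q := QQ w w' (fun j => e * v j) q with hQ
  have h3 : (!![ς, 0; 0, ς] : Matrix (Fin 2) (Fin 2) R) * Q = ς • Q := by
    rw [mulE]
    ext i j
    fin_cases i <;> fin_cases j <;> simp
  rw [h3] at h
  have hdet : P.det = w - w' := by rw [hP, det_fin_two_of]; ring
  have h4 : P.det * (mon v (w + w') q).trace = P.det * (ς * Q.trace) := by
    calc P.det * (mon v (w + w') q).trace = (mon v (w + w') q * (P * P.adjugate)).trace := by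
          rw [mul_adjugate, Matrix.mul_smul, Matrix.mul_one, trace_smul, smul_eq_mul]
      _ = (P * (ς • Q) * P.adjugate).trace := by rw [← Matrix.mul_assoc, h]
      _ = ((ς • Q) * (P.adjugate * P)).trace := by
          rw [trace_mul_comm, ← Matrix.mul_assoc, trace_mul_comm]
      _ = _ := by
          rw [adjugate_mul, Matrix.mul_smul, Matrix.mul_one, trace_smul, trace_smul, smul_eq_mul,
            smul_eq_mul]
  rw [hdet] at h4
  calc (mon v (w + w') q).trace = e * ((w - w') * (mon v (w + w') q).trace) := by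
        linear_combination - (mon v (w + w') q).trace * he
    _ = e * ((w - w') * (ς * Q.trace)) := by rw [h4]
    _ = _ := by linear_combination ς * Q.trace * he

theorem QQ_exp (J : Ideal R) (w w' : R) (hw : w * w' = 1) (b : ℕ → R) (hb : ∀ j, b j ∈ J) (n : ℕ) :
    ∃ e00 e01 e10 e11 t : R, e00 ∈ J ^ 2 ∧ e01 ∈ J ^ 2 ∧ e10 ∈ J ^ 2 ∧ e11 ∈ J ^ 2 ∧ t ∈ J ^ 3 ∧
      QQ w w' b n 0 0 = 1 - ∑ j ∈ Finset.range n, b j + e00 ∧
      QQ w w' b n 0 1 = -(w' ^ 2 * ∑ j ∈ Finset.range n, b j * w' ^ (2 * j)) + e01 ∧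
      QQ w w' b n 1 0 = w ^ 2 * (∑ j ∈ Finset.range n, b j * w ^ (2 * j)) + e10 ∧
      QQ w w' b n 1 1 = 1 + ∑ j ∈ Finset.range n, b j + e11 ∧
      e00 + e11 = (∑ j ∈ Finset.range n, b j) ^ 2 - (∑ j ∈ Finset.range n, b j * w ^ (2 * j)) *
        (∑ j ∈ Finset.range n, b j * w' ^ (2 * j)) + t := by
  induction n with
  | zero =>
    refine ⟨0, 0, 0, 0, 0, Ideal.zero_mem _, Ideal.zero_mem _, Ideal.zero_mem _, Ideal.zero_mem _,
      Ideal.zero_mem _, ?_, ?_, ?_, ?_, ?_⟩ <;> simp [QQ]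
  | succ n ih =>
    obtain ⟨e00, e01, e10, e11, t, h00, h01, h10, h11, ht, k00, k01, k10, k11, kt⟩ := ih
    have hpow : w ^ (2 * n) * w' ^ (2 * n) = 1 := by rw [← mul_pow, hw, one_pow]
    have hw2 : w ^ 2 * w' ^ 2 = 1 := by rw [← mul_pow, hw, one_pow]
    set s := ∑ j ∈ Finset.range n, b j with hs
    set f := ∑ j ∈ Finset.range n, b j * w ^ (2 * j) with hf
    set g := ∑ j ∈ Finset.range n, b j * w' ^ (2 * j) with hg
    have hsJ : s ∈ J := Ideal.sum_mem _ fun j _ => hb j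
    have hfJ : f ∈ J := Ideal.sum_mem _ fun j _ => Ideal.mul_mem_right _ _ (hb j)
    have hgJ : g ∈ J := Ideal.sum_mem _ fun j _ => Ideal.mul_mem_right _ _ (hb j)
    have hbJ := hb n
    have m2 : ∀ {x y : R}, x ∈ J → y ∈ J → x * y ∈ J ^ 2 := by
      intro x y hx hy
      rw [pow_two]
      exact Ideal.mul_mem_mul hx hy
    have m3 : ∀ {x y : R}, x ∈ J → y ∈ J ^ 2 → x * y ∈ J ^ 3 := by
      intro x y hx hy
      rw [pow_succ']
      exact Ideal.mul_mem_mul hx hy
    have r1 : QQ w w' b (n + 1) 0 0 = (1 - b n) * QQ w w' b n 0 0 +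
        -(b n * w' ^ (2 * n + 2)) * QQ w w' b n 1 0 := by
      rw [QQ, mulE]; rfl
    have r2 : QQ w w' b (n + 1) 0 1 = (1 - b n) * QQ w w' b n 0 1 +
        -(b n * w' ^ (2 * n + 2)) * QQ w w' b n 1 1 := by
      rw [QQ, mulE]; rfl
    have r3 : QQ w w' b (n + 1) 1 0 = b n * w ^ (2 * n + 2) * QQ w w' b n 0 0 +
        (1 + b n) * QQ w w' b n 1 0 := by
      rw [QQ, mulE]; rfl
    have r4 : QQ w w' b (n + 1) 1 1 = b n * w ^ (2 * n + 2) * QQ w w' b n 0 1 +
        (1 + b n) * QQ w w' b n 1 1 := by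
      rw [QQ, mulE]; rfl
    rw [Finset.sum_range_succ, Finset.sum_range_succ, Finset.sum_range_succ, ← hs, ← hf, ← hg]
    refine ⟨b n * s + (1 - b n) * e00 - w' ^ (2 * n) * (b n * f) - w' ^ (2 * n + 2) * (b n * e10),
      w' ^ 2 * (b n * g) + (1 - b n) * e01 - w' ^ (2 * n + 2) * (b n * s) -
        w' ^ (2 * n + 2) * (b n * e11),
      -(w ^ (2 * n + 2) * (b n * s)) + w ^ (2 * n + 2) * (b n * e00) + w ^ 2 * (b n * f) +
        (1 + b n) * e10,
      -(w ^ (2 * n) * (b n * g)) + w ^ (2 * n + 2) * (b n * e01) + b n * s + (1 + b n) * e11,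
      t - b n * e00 + b n * e11 - w' ^ (2 * n + 2) * (b n * e10) + w ^ (2 * n + 2) * (b n * e01),
      ?_, ?_, ?_, ?_, ?_, ?_, ?_, ?_, ?_, ?_⟩
    · refine Ideal.sub_mem _ (Ideal.sub_mem _ (Ideal.add_mem _ (m2 hbJ hsJ) ?_) ?_) ?_
      · exact Ideal.mul_mem_left _ _ h00
      · exact Ideal.mul_mem_left _ _ (m2 hbJ hfJ)
      · exact Ideal.mul_mem_left _ _ (Ideal.mul_mem_left _ _ h10)
    · refine Ideal.sub_mem _ (Ideal.sub_mem _ (Ideal.add_mem _ ?_ ?_) ?_) ?_
      · exact Ideal.mul_mem_left _ _ (m2 hbJ hgJ)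
      · exact Ideal.mul_mem_left _ _ h01
      · exact Ideal.mul_mem_left _ _ (m2 hbJ hsJ)
      · exact Ideal.mul_mem_left _ _ (Ideal.mul_mem_left _ _ h11)
    · refine Ideal.add_mem _ (Ideal.add_mem _ (Ideal.add_mem _ ?_ ?_) ?_) ?_
      · exact (Ideal.neg_mem_iff _).2 (Ideal.mul_mem_left _ _ (m2 hbJ hsJ))
      · exact Ideal.mul_mem_left _ _ (Ideal.mul_mem_left _ _ h00)
      · exact Ideal.mul_mem_left _ _ (m2 hbJ hfJ)
      · exact Ideal.mul_mem_left _ _ h10
    · refine Ideal.add_mem _ (Ideal.add_mem _ (Ideal.add_mem _ ?_ ?_) ?_) ?_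
      · exact (Ideal.neg_mem_iff _).2 (Ideal.mul_mem_left _ _ (m2 hbJ hgJ))
      · exact Ideal.mul_mem_left _ _ (Ideal.mul_mem_left _ _ h01)
      · exact m2 hbJ hsJ
      · exact Ideal.mul_mem_left _ _ h11
    · refine Ideal.add_mem _ (Ideal.sub_mem _ (Ideal.add_mem _ (Ideal.sub_mem _ ht ?_) ?_) ?_) ?_
      · exact m3 hbJ h00
      · exact m3 hbJ h11
      · exact Ideal.mul_mem_left _ _ (m3 hbJ h10)
      · exact Ideal.mul_mem_left _ _ (m3 hbJ h01)
    · rw [r1, k00, k10, show 2 * n + 2 = 2 * n + 2 from rfl, pow_add w' (2 * n) 2]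
      linear_combination (- b n * w' ^ (2 * n) * f) * hw2
    · rw [r2, k01, k11, pow_add w' (2 * n) 2]
      ring
    · rw [r3, k00, k10, pow_add w (2 * n) 2]
      ring
    · rw [r4, k01, k11, pow_add w (2 * n) 2]
      linear_combination (- b n * w ^ (2 * n) * g) * hw2
    · linear_combination kt + b n ^ 2 * hpow

/-- the expansion at an antisymmetric potential -/
theorem low [IsDomain R] [CharZero R] (J : Ideal R) {w w' e ς : R} (hw : w * w' = 1)
    (he : (w - w') * e = 1) (v : ℕ → R) (hv : ∀ j, v j ∈ J) (q : ℕ) (hq : 1 ≤ q)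
    (h1 : w ^ q = ς) (h2 : w' ^ q = ς) (hs : ς ^ 2 = 1)
    (ha : ∀ j < q, v j = - v (q - 1 - j)) :
    ∃ t ∈ J ^ 3, (mon v (w + w') q).trace - (mon (fun _ => 0) (w + w') q).trace =
      ς * w ^ 2 * e ^ 2 * (∑ j ∈ Finset.range q, v j * w ^ (2 * j)) ^ 2 + t := by
  have hz : (QQ w w' (fun _ => e * 0) q).trace = 2 := by
    have : ∀ n, QQ w w' (fun _ => e * 0) n = 1 := by
      intro n
      induction n with
      | zero => rfl
      | succ n ih =>
        rw [QQ, ih]
        ext i j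
        fin_cases i <;> fin_cases j <;> simp
    rw [this, trace_one]
    simp
  obtain ⟨e00, e01, e10, e11, t, h00, h01, h10, h11, ht, k00, k01, k10, k11, kt⟩ :=
    QQ_exp J w w' hw (fun j => e * v j) (fun j => Ideal.mul_mem_left _ _ (hv j)) q
  refine ⟨ς * t, Ideal.mul_mem_left _ _ ht, ?_⟩
  rw [trace_QQ hw he v q h1 h2, trace_QQ hw he (fun _ => 0) q h1 h2, hz, trace_fin_two, k00, k11]
  have es : ∑ j ∈ Finset.range q, v j = 0 := by
    have h3 : ∑ j ∈ Finset.range q, v j = - ∑ j ∈ Finset.range q, v j := by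
      conv_lhs => rw [← Finset.sum_range_reflect]
      rw [← Finset.sum_neg_distrib]
      apply Finset.sum_congr rfl
      intro j hj
      rw [Finset.mem_range] at hj
      rw [ha j hj, neg_neg]
    have h4 : (2 : R) * ∑ j ∈ Finset.range q, v j = 0 := by linear_combination h3
    rcases mul_eq_zero.1 h4 with h | h
    · exact absurd h two_ne_zero
    · exact h
  have es' : ∑ j ∈ Finset.range q, e * v j = 0 := by rw [← Finset.mul_sum, es, mul_zero]
  have ef : ∑ j ∈ Finset.range q, e * v j * w ^ (2 * j) =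
      e * ∑ j ∈ Finset.range q, v j * w ^ (2 * j) := by
    rw [Finset.mul_sum]
    exact Finset.sum_congr rfl fun j _ => by ring
  have eg : ∑ j ∈ Finset.range q, e * v j * w' ^ (2 * j) =
      - (w ^ 2 * (e * ∑ j ∈ Finset.range q, v j * w ^ (2 * j))) := by
    conv_lhs => rw [← Finset.sum_range_reflect]
    rw [Finset.mul_sum, Finset.mul_sum, ← Finset.sum_neg_distrib]
    apply Finset.sum_congr rfl
    intro j hj
    rw [Finset.mem_range] at hj
    have h3 : w' ^ (2 * (q - 1 - j)) = w ^ 2 * w ^ (2 * j) := by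
      have h4 : w' ^ (2 * (q - 1 - j)) * w' ^ (2 * (j + 1)) = 1 := by
        rw [← pow_add, show 2 * (q - 1 - j) + 2 * (j + 1) = q * 2 by omega, pow_mul, h2, hs]
      have h5 : w ^ (2 * (j + 1)) * w' ^ (2 * (j + 1)) = 1 := by rw [← mul_pow, hw, one_pow]
      calc w' ^ (2 * (q - 1 - j)) = w' ^ (2 * (q - 1 - j)) * (w ^ (2 * (j + 1)) * w' ^ (2 * (j + 1))) := by
            rw [h5, mul_one]
        _ = w ^ (2 * (j + 1)) * (w' ^ (2 * (q - 1 - j)) * w' ^ (2 * (j + 1))) := by ring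
        _ = w ^ 2 * w ^ (2 * j) := by rw [h4, mul_one]; ring
    rw [h3, ha j hj]
    ring
  rw [es', ef, eg] at kt
  rw [es']
  linear_combination ς * kt

end

end Pool.Agent.Q235.FI
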