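import Mathlib
import Pool.Agent.Q235.FI.Mon

set_option autoImplicit false

/-! the filtration by the total degree in the spectral parameter and the potential -/

namespace Pool.Agent.Q235.FI

open Matrix Polynomial
open FL (mon mon_det mulE mon_rec)

noncomputable section

variable {σ : Type*}

/-- total degree less than `n` -/
def Fl (n : ℕ) (f : (MvPolynomial σ ℂ)[X]) : Prop :=
  ∀ i, f.coeff i = 0 ∨ (f.coeff i).totalDegree + i < n

theorem Fl.mono {n k : ℕ} {f : (MvPolynomial σ ℂ)[X]} (h : Fl n f) (hnk : n ≤ k) : Fl k f :=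
  fun i => (h i).imp id fun h => h.trans_le hnk

theorem Fl.zero (n : ℕ) : Fl n (0 : (MvPolynomial σ ℂ)[X]) := fun i => Or.inl (coeff_zero i)

theorem Fl.add {n : ℕ} {f g : (MvPolynomial σ ℂ)[X]} (hf : Fl n f) (hg : Fl n g) :
    Fl n (f + g) := by
  intro i
  rw [coeff_add]
  rcases hf i with h1 | h1
  · rw [h1, zero_add]; exact hg i
  · rcases hg i with h2 | h2
    · rw [h2, add_zero]; exact Or.inr h1
    · right
      have := MvPolynomial.totalDegree_add (f.coeff i) (g.coeff i)
      have h3 : max (f.coeff i).totalDegree (g.coeff i).totalDegree + i < n := by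
        rcases max_choice (f.coeff i).totalDegree (g.coeff i).totalDegree with h | h <;> rw [h]
        · exact h1
        · exact h2
      omega

theorem Fl.neg {n : ℕ} {f : (MvPolynomial σ ℂ)[X]} (hf : Fl n f) : Fl n (-f) := by
  intro i
  rw [coeff_neg]
  rcases hf i with h1 | h1
  · left; rw [h1, neg_zero]
  · right; rw [MvPolynomial.totalDegree_neg]; exact h1

theorem Fl.sub {n : ℕ} {f g : (MvPolynomial σ ℂ)[X]} (hf : Fl n f) (hg : Fl n g) :
    Fl n (f - g) := by
  rw [sub_eq_add_neg]; exact hf.add hg.neg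

theorem Fl.mul_lin {n : ℕ} {f : (MvPolynomial σ ℂ)[X]} (hf : Fl n f) {a : MvPolynomial σ ℂ}
    (ha : a.totalDegree ≤ 1) : Fl (n + 1) ((X - C a) * f) := by
  rw [sub_mul]
  apply Fl.sub
  · intro i
    rcases i with _ | i
    · left; simp
    · rw [coeff_X_mul]
      rcases hf i with h | h
      · exact Or.inl h
      · right; omega
  · intro i
    rw [coeff_C_mul]
    rcases hf i with h | h
    · left; rw [h, mul_zero]
    · right
      have := MvPolynomial.totalDegree_mul a (f.coeff i)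
      omega

theorem Fl.one : Fl 1 (1 : (MvPolynomial σ ℂ)[X]) := by
  intro i
  rcases i with _ | i
  · right; simp
  · left
    rw [coeff_one]
    simp

theorem Fl.prod (v : ℕ → MvPolynomial σ ℂ) (hv : ∀ j, (v j).totalDegree ≤ 1) (n : ℕ) :
    Fl (n + 1) (∏ j ∈ Finset.range n, (X - C (v j))) := by
  induction n with
  | zero => simpa using Fl.one
  | succ n ih =>
    rw [Finset.prod_range_succ, mul_comm]
    exact ih.mul_lin (hv n)

theorem mon_fil (v : ℕ → MvPolynomial σ ℂ) (hv : ∀ j, (v j).totalDegree ≤ 1) (n : ℕ) :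
    Fl (n + 1) (mon (fun j => C (v j)) X (n + 1) 0 0 - ∏ j ∈ Finset.range (n + 1), (X - C (v j))) ∧
    Fl (n + 1) (mon (fun j => C (v j)) X (n + 1) 0 1) ∧
    Fl (n + 1) (mon (fun j => C (v j)) X (n + 1) 1 0) ∧
    Fl (n + 1) (mon (fun j => C (v j)) X (n + 1) 1 1) := by
  induction n with
  | zero =>
    obtain ⟨h1, h2, h3, h4⟩ := mon_rec (fun j => C (v j)) X 0
    rw [h1, h2, h3, h4]
    simp only [mon, Matrix.one_apply_eq, ne_eq, zero_ne_one, not_false_eq_true,
      Matrix.one_apply_ne, one_ne_zero, mul_one, sub_zero, mul_zero, zero_sub, zero_add,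
      Finset.prod_range_one, sub_self]
    exact ⟨Fl.zero 1, Fl.one.neg, Fl.one, Fl.zero 1⟩
  | succ n ih =>
    obtain ⟨i1, i2, i3, i4⟩ := ih
    obtain ⟨h1, h2, h3, h4⟩ := mon_rec (fun j => C (v j)) X (n + 1)
    rw [h1, h2, h3, h4]
    have hp := Fl.prod v hv (n + 1)
    refine ⟨?_, ?_, ?_, ?_⟩
    · have e : (X - C (v (n + 1))) * mon (fun j => C (v j)) X (n + 1) 0 0 -
          mon (fun j => C (v j)) X (n + 1) 1 0 -
          ∏ j ∈ Finset.range (n + 1 + 1), (X - C (v j)) =
          (X - C (v (n + 1))) * (mon (fun j => C (v j)) X (n + 1) 0 0 -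
            ∏ j ∈ Finset.range (n + 1), (X - C (v j))) - mon (fun j => C (v j)) X (n + 1) 1 0 := by
        rw [Finset.prod_range_succ _ (n + 1)]
        ring
      rw [e]
      exact (i1.mul_lin (hv _)).sub (i3.mono (by omega))
    · exact (i2.mul_lin (hv _)).sub (i4.mono (by omega))
    · have := (i1.mono (show n + 1 ≤ n + 1 + 1 by omega)).add hp
      simpa using this
    · exact i2.mono (by omega)

theorem DD_fil (v : ℕ → MvPolynomial σ ℂ) (hv : ∀ j, (v j).totalDegree ≤ 1) (q : ℕ) (hq : 1 ≤ q) :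
    Fl q (DD v q - ∏ j ∈ Finset.range q, (X - C (v j))) := by
  obtain ⟨n, rfl⟩ : ∃ n, q = n + 1 := ⟨q - 1, by omega⟩
  obtain ⟨i1, i2, i3, i4⟩ := mon_fil v hv n
  unfold DD
  rw [trace_fin_two, add_sub_right_comm]
  exact i1.add i4

end

end Pool.Agent.Q235.FI
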