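import Mathlib
import Pool.Agent.Q235.FI.Fil

set_option autoImplicit false

/-! the generic antisymmetric potential and the top forms of the coefficients -/

namespace Pool.Agent.Q235.FI

open Matrix Polynomial
open FL (mon mon_det mulE mon_rec)

noncomputable section

/-- the generic antisymmetric potential -/
def U (m q : ℕ) (j : ℕ) : MvPolynomial (Fin m) ℂ :=
  if h : j < m then MvPolynomial.C Complex.I * MvPolynomial.X ⟨j, h⟩
  else if h : q - 1 - j < m then -(MvPolynomial.C Complex.I * MvPolynomial.X ⟨q - 1 - j, h⟩)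
  else 0

variable {m q : ℕ}

theorem U_anti (hq : q = 2 * m ∨ q = 2 * m + 1) (j : ℕ) (hj : j < q) :
    U m q j = - U m q (q - 1 - j) := by
  have hjj : q - 1 - (q - 1 - j) = j := by omega
  unfold U
  by_cases h1 : j < m
  · have h2 : ¬ (q - 1 - j < m) := by omega
    rw [dif_pos h1, dif_neg h2, dif_pos (by omega : q - 1 - (q - 1 - j) < m), neg_neg]
    congr 3
    exact hjj.symm
  · by_cases h2 : q - 1 - j < m
    · rw [dif_neg h1, dif_pos h2, dif_pos h2]
    · rw [dif_neg h1, dif_neg h2, dif_neg h2, dif_neg (by omega : ¬ (q - 1 - (q - 1 - j) < m)),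
        neg_zero]

theorem U_deg (j : ℕ) : (U m q j).totalDegree ≤ 1 := by
  have key : ∀ i : Fin m, (MvPolynomial.C Complex.I * MvPolynomial.X i :
      MvPolynomial (Fin m) ℂ).totalDegree ≤ 1 := by
    intro i
    refine (MvPolynomial.totalDegree_mul _ _).trans ?_
    rw [MvPolynomial.totalDegree_C, MvPolynomial.totalDegree_X]
  unfold U
  split_ifs with h1 h2
  · exact key _
  · rw [MvPolynomial.totalDegree_neg]; exact key _
  · simp

/-- squares of the variables -/
def sqX (m : ℕ) (i : Fin m) : MvPolynomial (Fin m) ℂ := MvPolynomial.X i ^ 2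

theorem U_mul (j : ℕ) (h : j < m) : (X - C (U m q j)) * (X + C (U m q j)) =
    X ^ 2 + C (sqX m ⟨j, h⟩) := by
  unfold U sqX
  rw [dif_pos h]
  have h1 : (C (MvPolynomial.C Complex.I : MvPolynomial (Fin m) ℂ)) ^ 2 = -1 := by
    rw [← C_pow, ← MvPolynomial.C_pow, Complex.I_sq]
    simp
  rw [C_mul, C_pow]
  linear_combination - (C (MvPolynomial.X ⟨j, h⟩ : MvPolynomial (Fin m) ℂ)) ^ 2 * h1

theorem prod_U (hq : q = 2 * m ∨ q = 2 * m + 1) :
    ∏ j ∈ Finset.range q, (X - C (U m q j)) = X ^ (q - 2 * m) * ∏ i : Fin m, (X ^ 2 + C (sqX m i)) := by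
  have e1 : q = m + (q - 2 * m) + m := by omega
  have h1 : ∏ j ∈ Finset.range q, (X - C (U m q j)) =
      ((∏ j ∈ Finset.range m, (X - C (U m q j))) *
        ∏ j ∈ Finset.range (q - 2 * m), (X - C (U m q (m + j)))) *
        ∏ j ∈ Finset.range m, (X - C (U m q (m + (q - 2 * m) + j))) := by
    rw [← Finset.prod_range_add, ← Finset.prod_range_add, ← e1]
  have h2 : ∏ j ∈ Finset.range (q - 2 * m), (X - C (U m q (m + j))) = X ^ (q - 2 * m) := by
    rw [Finset.prod_eq_pow_card (b := X), Finset.card_range]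
    intro j hj
    rw [Finset.mem_range] at hj
    have : U m q (m + j) = 0 := by
      unfold U
      rw [dif_neg (by omega), dif_neg (by omega)]
    rw [this, C_0, sub_zero]
  have h3 : ∏ j ∈ Finset.range m, (X - C (U m q (m + (q - 2 * m) + j))) =
      ∏ j ∈ Finset.range m, (X + C (U m q j)) := by
    rw [← Finset.prod_range_reflect]
    apply Finset.prod_congr rfl
    intro j hj
    rw [Finset.mem_range] at hj
    rw [U_anti hq (m + (q - 2 * m) + (m - 1 - j)) (by omega), C_neg, sub_neg_eq_add]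
    congr 3
    omega
  rw [h1, h2, h3]
  have h4 : (∏ j ∈ Finset.range m, (X - C (U m q j))) *
      ∏ j ∈ Finset.range m, (X + C (U m q j)) = ∏ i : Fin m, (X ^ 2 + C (sqX m i)) := by
    rw [← Finset.prod_mul_distrib, Finset.prod_range]
    apply Finset.prod_congr rfl
    intro i _
    exact U_mul i i.isLt
  rw [← h4]
  ring

/-- the top forms -/
def EE (m : ℕ) (k : Fin m) : MvPolynomial (Fin m) ℂ :=
  MvPolynomial.expand 2 (MvPolynomial.esymm (Fin m) ℂ (k + 1))

theorem coeff_prod (k : ℕ) (hk : k ≤ m) :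
    (∏ i : Fin m, (X ^ 2 + C (sqX m i))).coeff (2 * (m - k)) =
      MvPolynomial.expand 2 (MvPolynomial.esymm (Fin m) ℂ k) := by
  have h1 : ∏ i : Fin m, (X ^ 2 + C (sqX m i)) = Polynomial.expand _ 2
      ((∏ i : Fin m, (X + C (MvPolynomial.X i : MvPolynomial (Fin m) ℂ))).map
        (MvPolynomial.expand 2 : MvPolynomial (Fin m) ℂ →ₐ[ℂ] _).toRingHom) := by
    rw [Polynomial.map_prod, map_prod]
    apply Finset.prod_congr rfl
    intro i _
    rw [Polynomial.map_add, map_X, map_C, map_add, expand_X, expand_C]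
    congr 2
    show _ = MvPolynomial.expand 2 (MvPolynomial.X i)
    rw [MvPolynomial.expand_X]
    rfl
  rw [h1, mul_comm, coeff_expand_mul (by norm_num), coeff_map, MvPolynomial.prod_X_add_C_coeff]
  · rw [Fintype.card_fin]
    have : m - (m - k) = k := by omega
    rw [this]
    rfl
  · rw [Fintype.card_fin]; omega

/-- the difference of the discriminants -/
def DF (m q : ℕ) : (MvPolynomial (Fin m) ℂ)[X] := DD (U m q) q - DD (fun _ => 0) q

/-- its coefficients -/
def cc (m q : ℕ) (k : Fin m) : MvPolynomial (Fin m) ℂ := (DF m q).coeff (q - 2 * (k + 1))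

theorem DF_eq : DF m q = (DD (U m q) q - ∏ j ∈ Finset.range q, (X - C (U m q j))) -
    (DD (fun _ => (0 : MvPolynomial (Fin m) ℂ)) q - ∏ j ∈ Finset.range q, (X - C 0)) +
    (∏ j ∈ Finset.range q, (X - C (U m q j)) - X ^ q) := by
  unfold DF
  have : ∏ j ∈ Finset.range q, ((X : (MvPolynomial (Fin m) ℂ)[X]) - C 0) = X ^ q := by simp
  rw [this]
  ring

theorem cc_top (hm : 1 ≤ m) (hq : q = 2 * m ∨ q = 2 * m + 1) (k : Fin m) :
    (cc m q k - EE m k).totalDegree < 2 * (k + 1) := by
  have hk := k.isLt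
  have f1 := DD_fil (U m q) U_deg q (by omega)
  have f2 := DD_fil (fun _ => (0 : MvPolynomial (Fin m) ℂ)) (fun _ => by simp) q (by omega)
  have f3 := f1.sub f2
  have h1 : (∏ j ∈ Finset.range q, (X - C (U m q j)) - X ^ q).coeff (q - 2 * (k + 1)) = EE m k := by
    rw [coeff_sub, coeff_X_pow, if_neg (by omega), sub_zero, prod_U hq]
    have : q - 2 * (k + 1) = 2 * (m - (k + 1)) + (q - 2 * m) := by omega
    rw [this, coeff_X_pow_mul, coeff_prod (k + 1) (by omega)]
    rfl
  unfold cc
  rw [DF_eq, coeff_add, h1, add_sub_cancel_right]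
  rcases f3 (q - 2 * (k + 1)) with h | h
  · rw [h]; simp
  · omega

theorem DF_coeff (hm : 1 ≤ m) (hq : q = 2 * m ∨ q = 2 * m + 1) (i : ℕ) :
    (DF m q).coeff i ∈ Ideal.span (Set.range (cc m q)) := by
  by_cases hi : q ≤ i
  · have f1 := DD_fil (U m q) U_deg q (by omega)
    have f2 := DD_fil (fun _ => (0 : MvPolynomial (Fin m) ℂ)) (fun _ => by simp) q (by omega)
    have f3 := f1.sub f2
    rw [DF_eq, coeff_add]
    have h1 : (DD (U m q) q - ∏ j ∈ Finset.range q, (X - C (U m q j)) -
        (DD (fun _ => (0 : MvPolynomial (Fin m) ℂ)) q - ∏ j ∈ Finset.range q, (X - C 0))).coeff i = 0 := by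
      rcases f3 i with h | h
      · exact h
      · omega
    have h2 : (∏ j ∈ Finset.range q, (X - C (U m q j)) - X ^ q).coeff i = 0 := by
      have hmon : (∏ j ∈ Finset.range q, (X - C (U m q j))).Monic :=
        monic_prod_of_monic _ _ fun j _ => monic_X_sub_C _
      have hdeg : (∏ j ∈ Finset.range q, (X - C (U m q j))).natDegree = q := by
        rw [natDegree_prod_of_monic _ _ fun j _ => monic_X_sub_C _]
        simp
      rw [coeff_sub, coeff_X_pow]
      rcases hi.lt_or_eq with h | h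
      · rw [coeff_eq_zero_of_natDegree_lt (by rw [hdeg]; exact h), if_neg (by omega), sub_zero]
      · rw [← h, if_pos rfl]
        have := hmon.coeff_natDegree
        rw [hdeg] at this
        rw [this, sub_self]
    rw [h1, h2, add_zero]
    exact Ideal.zero_mem _
  · rcases Nat.even_or_odd (q + i) with he | ho
    · obtain ⟨t, ht⟩ := he
      have hk : q - i = 2 * ((q - i) / 2 - 1 + 1) := by omega
      have hlt : (q - i) / 2 - 1 < m := by omega
      have : (DF m q).coeff i = cc m q ⟨(q - i) / 2 - 1, hlt⟩ := by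
        unfold cc
        congr 1
        show i = q - 2 * ((q - i) / 2 - 1 + 1)
        omega
      rw [this]
      exact Ideal.subset_span ⟨_, rfl⟩
    · unfold DF
      rw [coeff_sub, coeff_parity (U m q) q (fun j hj => U_anti hq j hj) i ho,
        coeff_parity (fun _ => (0 : MvPolynomial (Fin m) ℂ)) q (fun j hj => by simp) i ho, sub_zero]
      exact Ideal.zero_mem _

theorem DF_eval_mem (hm : 1 ≤ m) (hq : q = 2 * m ∨ q = 2 * m + 1) (x : MvPolynomial (Fin m) ℂ) :
    (mon (U m q) x q).trace - (mon (fun _ => 0) x q).trace ∈ Ideal.span (Set.range (cc m q)) := by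
  have : (mon (U m q) x q).trace - (mon (fun _ => 0) x q).trace = (DF m q).eval x := by
    unfold DF
    rw [eval_sub, eval_DD, eval_DD]
  rw [this, eval_eq_sum_range]
  exact Ideal.sum_mem _ fun i _ => Ideal.mul_mem_right _ _ (DF_coeff hm hq i)

end

end Pool.Agent.Q235.FI
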