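import Mathlib
import Pool.Agent.Q235.FI.Top
import Pool.Agent.Q235.FI.Low

set_option autoImplicit false

/-! the Fourier coefficients of the generic antisymmetric potential -/

namespace Pool.Agent.Q235.FI

open Matrix Polynomial
open FL (mon mon_det mulE mon_rec)

noncomputable section

variable {m q : ℕ}

/-- Fourier coefficients -/
def Y (m q : ℕ) (w : ℂ) (k : ℕ) : MvPolynomial (Fin m) ℂ :=
  ∑ j ∈ Finset.range q, U m q j * MvPolynomial.C (w ^ (k * j))

theorem geom_zero {w : ℂ} (hw : w ^ q = 1) (h1 : w ≠ 1) : ∑ k ∈ Finset.range q, w ^ k = 0 := by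
  have h := mul_geom_sum w q
  rw [hw, sub_self] at h
  exact (mul_eq_zero.1 h).resolve_left (sub_ne_zero.2 h1)

theorem Y_reflect (hq : q = 2 * m ∨ q = 2 * m + 1) {w : ℂ} (hw : w ^ q = 1) (k : ℕ) (hk : k ≤ q) :
    Y m q w (q - k) = - MvPolynomial.C (w ^ k) * Y m q w k := by
  unfold Y
  conv_lhs => rw [← Finset.sum_range_reflect]
  rw [Finset.mul_sum]
  apply Finset.sum_congr rfl
  intro j hj
  rw [Finset.mem_range] at hj
  have hw0 : w ≠ 0 := by
    rintro rfl
    rw [zero_pow (by omega)] at hw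
    exact zero_ne_one hw
  have h1 : w ^ ((q - k) * (q - 1 - j)) = w ^ k * w ^ (k * j) := by
    have h2 : w ^ ((q - k) * (q - 1 - j)) * w ^ (k * (q - 1 - j)) = 1 := by
      rw [← pow_add, ← add_mul, Nat.sub_add_cancel hk, pow_mul, hw, one_pow]
    have h3 : (w ^ k * w ^ (k * j)) * w ^ (k * (q - 1 - j)) = 1 := by
      rw [← pow_add, ← pow_add]
      have : k + k * j + k * (q - 1 - j) = q * k := by
        have e : q = 1 + j + (q - 1 - j) := by omega
        calc k + k * j + k * (q - 1 - j) = (1 + j + (q - 1 - j)) * k := by ring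
          _ = q * k := by rw [← e]
      rw [this, pow_mul, hw, one_pow]
    exact mul_right_cancel₀ (pow_ne_zero _ hw0) (h2.trans h3.symm)
  have h4 : U m q (q - 1 - j) = - U m q j := by
    have := U_anti hq (q - 1 - j) (by omega)
    rwa [show q - 1 - (q - 1 - j) = j by omega] at this
  rw [h1, h4, MvPolynomial.C_mul]
  ring

theorem Y_zero (hq : q = 2 * m ∨ q = 2 * m + 1) {w : ℂ} : Y m q w 0 = 0 := by
  have h1 : Y m q w 0 = - Y m q w 0 := by
    unfold Y
    conv_lhs => rw [← Finset.sum_range_reflect]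
    rw [← Finset.sum_neg_distrib]
    apply Finset.sum_congr rfl
    intro j hj
    rw [Finset.mem_range] at hj
    have h4 : U m q (q - 1 - j) = - U m q j := by
      have := U_anti hq (q - 1 - j) (by omega)
      rwa [show q - 1 - (q - 1 - j) = j by omega] at this
    rw [h4, zero_mul, zero_mul]
    ring
  have h2 : (2 : MvPolynomial (Fin m) ℂ) * Y m q w 0 = 0 := by linear_combination h1
  rcases mul_eq_zero.1 h2 with h | h
  · exact absurd h two_ne_zero
  · exact h

theorem Y_inv {w : ℂ} (hw : IsPrimitiveRoot w q) (i : ℕ) (hi : i < q) :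
    ∑ k ∈ Finset.range q, MvPolynomial.C (w ^ ((q - i) * k)) * Y m q w k =
      MvPolynomial.C (q : ℂ) * U m q i := by
  have h1 : ∑ k ∈ Finset.range q, MvPolynomial.C (w ^ ((q - i) * k)) * Y m q w k =
      ∑ j ∈ Finset.range q, U m q j * MvPolynomial.C (∑ k ∈ Finset.range q, (w ^ (q - i + j)) ^ k) := by
    unfold Y
    simp only [Finset.mul_sum, map_sum]
    rw [Finset.sum_comm]
    apply Finset.sum_congr rfl
    intro j _
    apply Finset.sum_congr rfl
    intro k _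
    have : (w ^ (q - i + j)) ^ k = w ^ ((q - i) * k) * w ^ (k * j) := by
      rw [← pow_mul, ← pow_add]
      congr 1
      ring
    rw [this, MvPolynomial.C_mul]
    ring
  rw [h1, Finset.sum_eq_single i]
  · have : w ^ (q - i + i) = 1 := by rw [Nat.sub_add_cancel hi.le, hw.pow_eq_one]
    rw [this]
    simp only [one_pow, Finset.sum_const, Finset.card_range, nsmul_eq_mul, mul_one]
    ring
  · intro j hj hij
    rw [Finset.mem_range] at hj
    rw [geom_zero, MvPolynomial.C_0, mul_zero]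
    · rw [← pow_mul, mul_comm, pow_mul, hw.pow_eq_one, one_pow]
    · intro h
      have h2 : q ∣ q - i + j := (hw.pow_eq_one_iff_dvd _).1 h
      obtain ⟨t, ht⟩ := h2
      have ht1 : t < 2 := by
        by_contra hcon
        push Not at hcon
        have : q * 2 ≤ q * t := Nat.mul_le_mul_left q hcon
        omega
      interval_cases t <;> omega
  · intro h
    exact absurd (Finset.mem_range.2 hi) h

/-- the coordinates -/
def yy (m q : ℕ) (w : ℂ) (k : Fin m) : MvPolynomial (Fin m) ℂ := Y m q w (k + 1)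

theorem Y_mem (hq : q = 2 * m ∨ q = 2 * m + 1) {w : ℂ} (hw : w ^ q = 1) (k : ℕ) (hk : k < q) :
    Y m q w k ∈ Ideal.span (Set.range (yy m q w)) := by
  rcases Nat.eq_zero_or_pos k with rfl | hk0
  · rw [Y_zero hq]; exact Ideal.zero_mem _
  · by_cases h : k ≤ m
    · apply Ideal.subset_span
      refine ⟨⟨k - 1, by omega⟩, ?_⟩
      unfold yy
      congr 1
      show k - 1 + 1 = k
      omega
    · have h1 : k = q - (q - k) := by omega
      rw [h1, Y_reflect hq hw (q - k) (by omega)]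
      apply Ideal.mul_mem_left
      apply Ideal.subset_span
      refine ⟨⟨q - k - 1, by omega⟩, ?_⟩
      unfold yy
      congr 1
      show q - k - 1 + 1 = q - k
      omega

theorem X_mem (hq : q = 2 * m ∨ q = 2 * m + 1) {w : ℂ} (hw : IsPrimitiveRoot w q) (i : Fin m) :
    (MvPolynomial.X i : MvPolynomial (Fin m) ℂ) ∈ Ideal.span (Set.range (yy m q w)) := by
  have hi := i.isLt
  have h1 : MvPolynomial.C (q : ℂ) * U m q i ∈ Ideal.span (Set.range (yy m q w)) := by
    rw [← Y_inv hw (i : ℕ) (by omega)]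
    exact Ideal.sum_mem _ fun k hk => Ideal.mul_mem_left _ _
      (Y_mem hq hw.pow_eq_one k (Finset.mem_range.1 hk))
  have h2 : (MvPolynomial.X i : MvPolynomial (Fin m) ℂ) =
      MvPolynomial.C ((q : ℂ)⁻¹ * (-Complex.I)) * (MvPolynomial.C (q : ℂ) * U m q i) := by
    unfold U
    rw [dif_pos hi]
    have hq0 : (q : ℂ) ≠ 0 := by
      have : q ≠ 0 := by omega
      exact_mod_cast this
    rw [← mul_assoc, ← mul_assoc, ← MvPolynomial.C_mul, ← MvPolynomial.C_mul]
    have : (q : ℂ)⁻¹ * -Complex.I * q * Complex.I = 1 := by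
      field_simp
      rw [Complex.I_sq]; ring
    rw [this]
    simp
  rw [h2]
  exact Ideal.mul_mem_left _ _ h1

theorem U_mem (j : ℕ) :
    U m q j ∈ Ideal.span (Set.range (MvPolynomial.X : Fin m → MvPolynomial (Fin m) ℂ)) := by
  unfold U
  split_ifs with h1 h2
  · exact Ideal.mul_mem_left _ _ (Ideal.subset_span ⟨_, rfl⟩)
  · exact (Ideal.neg_mem_iff _).2 (Ideal.mul_mem_left _ _ (Ideal.subset_span ⟨_, rfl⟩))
  · exact Ideal.zero_mem _

theorem span_eq (hq : q = 2 * m ∨ q = 2 * m + 1) {w : ℂ} (hw : IsPrimitiveRoot w q) :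
    Ideal.span (Set.range (yy m q w)) =
      Ideal.span (Set.range (MvPolynomial.X : Fin m → MvPolynomial (Fin m) ℂ)) := by
  apply le_antisymm
  · rw [Ideal.span_le]
    rintro _ ⟨k, rfl⟩
    show yy m q w k ∈ Ideal.span (Set.range MvPolynomial.X)
    unfold yy Y
    exact Ideal.sum_mem _ fun j _ => Ideal.mul_mem_right _ _ (U_mem j)
  · rw [Ideal.span_le]
    rintro _ ⟨i, rfl⟩
    exact X_mem hq hw i

/-- squares of the coordinates -/
theorem yy_sq (hm : 1 ≤ m) (hq : q = 2 * m ∨ q = 2 * m + 1) {z : ℂ} (hz : IsPrimitiveRoot z (2 * q))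
    (k : Fin m) : yy m q (z ^ 2) k ^ 2 ∈ Ideal.span (Set.range (cc m q)) ⊔
      Ideal.span (Set.range (yy m q (z ^ 2))) ^ 3 := by
  have hk := k.isLt
  have hw : IsPrimitiveRoot (z ^ 2) q := hz.pow (by omega) rfl
  have hz0 : z ≠ 0 := hz.ne_zero (by omega)
  obtain ⟨w, hwd⟩ : ∃ w : ℂ, w = z ^ ((k : ℕ) + 1) := ⟨_, rfl⟩
  have hw0 : w ≠ 0 := by rw [hwd]; exact pow_ne_zero _ hz0
  have hwq : (w ^ q) ^ 2 = 1 := by
    rw [hwd, ← pow_mul, ← pow_mul, show ((k : ℕ) + 1) * (q * 2) = (2 * q) * (k + 1) by ring, pow_mul,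
      hz.pow_eq_one, one_pow]
  have hne : w - w⁻¹ ≠ 0 := by
    intro h
    have h2 : w ^ 2 = 1 := by
      have h3 : w = w⁻¹ := sub_eq_zero.1 h
      calc w ^ 2 = w * w := pow_two w
        _ = w * w⁻¹ := by rw [← h3]
        _ = 1 := mul_inv_cancel₀ hw0
    rw [hwd, ← pow_mul] at h2
    have h3 := (hz.pow_eq_one_iff_dvd _).1 h2
    have := Nat.le_of_dvd (by omega) h3
    omega
  have hinvq : (w⁻¹) ^ q = w ^ q := by
    rw [inv_pow]
    have h0 : w ^ q ≠ 0 := pow_ne_zero _ hw0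
    field_simp
    exact hwq.symm
  set J := Ideal.span (Set.range (yy m q (z ^ 2))) with hJ
  obtain ⟨t, ht, hlow⟩ := low J (w := MvPolynomial.C w) (w' := MvPolynomial.C w⁻¹)
    (e := MvPolynomial.C (w - w⁻¹)⁻¹) (ς := MvPolynomial.C (w ^ q))
    (by rw [← MvPolynomial.C_mul, mul_inv_cancel₀ hw0]; rfl)
    (by rw [← MvPolynomial.C_sub, ← MvPolynomial.C_mul, mul_inv_cancel₀ hne]; rfl) (U m q)
    (fun j => by rw [hJ, span_eq hq hw]; exact U_mem j) q (by omega)
    (by rw [MvPolynomial.C_pow]) (by rw [← MvPolynomial.C_pow, hinvq])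
    (by rw [← MvPolynomial.C_pow, hwq]; rfl) (fun j hj => U_anti hq j hj)
  have hY : ∑ j ∈ Finset.range q, U m q j * MvPolynomial.C w ^ (2 * j) = yy m q (z ^ 2) k := by
    unfold yy Y
    apply Finset.sum_congr rfl
    intro j _
    rw [← MvPolynomial.C_pow, hwd, ← pow_mul, ← pow_mul]
    congr 3
    ring
  rw [hY] at hlow
  have hF := DF_eval_mem hm hq (MvPolynomial.C w + MvPolynomial.C w⁻¹)
  rw [hlow] at hF
  have hc : w ^ q * w ^ 2 * ((w - w⁻¹)⁻¹) ^ 2 ≠ 0 :=
    mul_ne_zero (mul_ne_zero (pow_ne_zero _ hw0) (pow_ne_zero _ hw0))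
      (pow_ne_zero _ (inv_ne_zero hne))
  have e1 : yy m q (z ^ 2) k ^ 2 = MvPolynomial.C (w ^ q * w ^ 2 * ((w - w⁻¹)⁻¹) ^ 2)⁻¹ *
      (MvPolynomial.C (w ^ q) * MvPolynomial.C w ^ 2 * MvPolynomial.C (w - w⁻¹)⁻¹ ^ 2 *
        yy m q (z ^ 2) k ^ 2 + t) +
      (-MvPolynomial.C (w ^ q * w ^ 2 * ((w - w⁻¹)⁻¹) ^ 2)⁻¹) * t := by
    rw [← MvPolynomial.C_pow, ← MvPolynomial.C_pow, ← MvPolynomial.C_mul, ← MvPolynomial.C_mul]
    have h1 : (MvPolynomial.C (w ^ q * w ^ 2 * ((w - w⁻¹)⁻¹) ^ 2)⁻¹ : MvPolynomial (Fin m) ℂ) *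
        MvPolynomial.C (w ^ q * w ^ 2 * ((w - w⁻¹)⁻¹) ^ 2) = 1 := by
      rw [← MvPolynomial.C_mul, inv_mul_cancel₀ hc]; rfl
    linear_combination - yy m q (z ^ 2) k ^ 2 * h1
  rw [e1]
  exact Submodule.add_mem_sup (Ideal.mul_mem_left _ _ hF) (Ideal.mul_mem_left _ _ ht)

end

end Pool.Agent.Q235.FI
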