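import Mathlib
import Pool.Agent.Q235.FI.Top

set_option autoImplicit false

/-! the degree filtration and leading forms -/

namespace Pool.Agent.Q235.FI

open MvPolynomial

noncomputable section

variable {m : ℕ}

/-- degree of an exponent -/
def dg (a : Fin m →₀ ℕ) : ℕ := ∑ i, a i

theorem dg_add (a b : Fin m →₀ ℕ) : dg (a + b) = dg a + dg b := by
  unfold dg
  rw [← Finset.sum_add_distrib]
  exact Finset.sum_congr rfl fun i _ => rfl

/-- all monomials have degree less than `n` -/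
def Lt (n : ℕ) (f : MvPolynomial (Fin m) ℂ) : Prop := ∀ a, coeff a f ≠ 0 → dg a < n

/-- all monomials have degree `n` -/
def Hm (n : ℕ) (f : MvPolynomial (Fin m) ℂ) : Prop := ∀ a, coeff a f ≠ 0 → dg a = n

theorem Lt.mono {n k : ℕ} {f : MvPolynomial (Fin m) ℂ} (h : Lt n f) (hk : n ≤ k) : Lt k f :=
  fun a ha => (h a ha).trans_le hk

theorem Lt.zero (n : ℕ) : Lt n (0 : MvPolynomial (Fin m) ℂ) := fun a ha => absurd (coeff_zero a) ha

theorem Hm.zero (n : ℕ) : Hm n (0 : MvPolynomial (Fin m) ℂ) := fun a ha => absurd (coeff_zero a) ha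

theorem Lt.add {n : ℕ} {f g : MvPolynomial (Fin m) ℂ} (hf : Lt n f) (hg : Lt n g) :
    Lt n (f + g) := by
  intro a ha
  rw [coeff_add] at ha
  by_cases h : coeff a f = 0
  · rw [h, zero_add] at ha; exact hg a ha
  · exact hf a h

theorem Hm.add {n : ℕ} {f g : MvPolynomial (Fin m) ℂ} (hf : Hm n f) (hg : Hm n g) :
    Hm n (f + g) := by
  intro a ha
  rw [coeff_add] at ha
  by_cases h : coeff a f = 0
  · rw [h, zero_add] at ha; exact hg a ha
  · exact hf a h

theorem Lt.neg {n : ℕ} {f : MvPolynomial (Fin m) ℂ} (hf : Lt n f) : Lt n (-f) := by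
  intro a ha
  rw [coeff_neg] at ha
  exact hf a fun h => ha (by rw [h, neg_zero])

theorem Lt.sub {n : ℕ} {f g : MvPolynomial (Fin m) ℂ} (hf : Lt n f) (hg : Lt n g) :
    Lt n (f - g) := by
  rw [sub_eq_add_neg]; exact hf.add hg.neg

theorem Lt.sum {ι : Type*} {n : ℕ} (s : Finset ι) (f : ι → MvPolynomial (Fin m) ℂ)
    (h : ∀ i ∈ s, Lt n (f i)) : Lt n (∑ i ∈ s, f i) := by
  classical
  induction s using Finset.induction_on with
  | empty => exact Lt.zero n
  | insert i s hi ih =>
    rw [Finset.sum_insert hi]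
    exact (h i (Finset.mem_insert_self _ _)).add (ih fun j hj => h j (Finset.mem_insert_of_mem hj))

theorem Hm.sum {ι : Type*} {n : ℕ} (s : Finset ι) (f : ι → MvPolynomial (Fin m) ℂ)
    (h : ∀ i ∈ s, Hm n (f i)) : Hm n (∑ i ∈ s, f i) := by
  classical
  induction s using Finset.induction_on with
  | empty => exact Hm.zero n
  | insert i s hi ih =>
    rw [Finset.sum_insert hi]
    exact (h i (Finset.mem_insert_self _ _)).add (ih fun j hj => h j (Finset.mem_insert_of_mem hj))

theorem coeff_mul_ne {f g : MvPolynomial (Fin m) ℂ} {a : Fin m →₀ ℕ} (h : coeff a (f * g) ≠ 0) :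
    ∃ b c, coeff b f ≠ 0 ∧ coeff c g ≠ 0 ∧ a = b + c := by
  classical
  have h1 := support_mul f g (mem_support_iff.2 h)
  obtain ⟨b, hb, c, hc, rfl⟩ := Finset.mem_add.1 h1
  exact ⟨b, c, mem_support_iff.1 hb, mem_support_iff.1 hc, rfl⟩

theorem Lt.mul {n k : ℕ} {f g : MvPolynomial (Fin m) ℂ} (hf : Lt n f) (hg : Lt (k + 1) g) :
    Lt (n + k) (f * g) := by
  intro a ha
  obtain ⟨b, c, hb, hc, rfl⟩ := coeff_mul_ne ha
  rw [dg_add]
  have h1 := hf b hb
  have h2 := hg c hc
  omega

theorem Hm.mul {n k : ℕ} {f g : MvPolynomial (Fin m) ℂ} (hf : Hm n f) (hg : Hm k g) :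
    Hm (n + k) (f * g) := by
  intro a ha
  obtain ⟨b, c, hb, hc, rfl⟩ := coeff_mul_ne ha
  rw [dg_add, hf b hb, hg c hc]

theorem Hm.lt {n k : ℕ} {f : MvPolynomial (Fin m) ℂ} (hf : Hm n f) (h : n < k) : Lt k f :=
  fun a ha => by rw [hf a ha]; exact h

theorem Hm.eq_zero {n : ℕ} {f : MvPolynomial (Fin m) ℂ} (hf : Hm n f) (h : Lt n f) : f = 0 := by
  ext a
  rw [coeff_zero]
  by_contra hne
  exact absurd (hf a hne) (h a hne).ne

theorem Hm.C (z : ℂ) : Hm 0 (MvPolynomial.C z : MvPolynomial (Fin m) ℂ) := by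
  classical
  intro a ha
  rw [coeff_C] at ha
  split_ifs at ha with h
  · rw [← h]; simp [dg]
  · exact absurd rfl ha

theorem Hm.X (i : Fin m) : Hm 1 (MvPolynomial.X i : MvPolynomial (Fin m) ℂ) := by
  classical
  intro a ha
  rw [coeff_X'] at ha
  split_ifs at ha with h
  · rw [← h]
    unfold dg
    rw [Finset.sum_eq_single i]
    · simp
    · intro j _ hj
      rw [Finsupp.single_eq_of_ne hj]
    · intro h; exact absurd (Finset.mem_univ i) h
  · exact absurd rfl ha

theorem Hm.pow {n : ℕ} {f : MvPolynomial (Fin m) ℂ} (hf : Hm n f) (k : ℕ) : Hm (n * k) (f ^ k) := by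
  induction k with
  | zero => simpa using Hm.C 1
  | succ k ih => rw [pow_succ, Nat.mul_succ]; exact ih.mul hf

theorem Hm.prod {ι : Type*} (s : Finset ι) (f : ι → MvPolynomial (Fin m) ℂ) (n : ι → ℕ)
    (h : ∀ i ∈ s, Hm (n i) (f i)) : Hm (∑ i ∈ s, n i) (∏ i ∈ s, f i) := by
  classical
  induction s using Finset.induction_on with
  | empty => simpa using Hm.C 1
  | insert i s hi ih =>
    rw [Finset.sum_insert hi, Finset.prod_insert hi]
    exact (h i (Finset.mem_insert_self _ _)).mul (ih fun j hj => h j (Finset.mem_insert_of_mem hj))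

/-- `x` and `y` have degree at most `n` and the same leading form -/
def Ap (n : ℕ) (x y : MvPolynomial (Fin m) ℂ) : Prop := Lt (n + 1) x ∧ Lt (n + 1) y ∧ Lt n (x - y)

theorem Ap.one : Ap 0 (1 : MvPolynomial (Fin m) ℂ) 1 := by
  have h : Lt 1 (1 : MvPolynomial (Fin m) ℂ) := (Hm.C 1).lt (by norm_num)
  exact ⟨h, h, by rw [sub_self]; exact Lt.zero 0⟩

theorem Ap.mul {n k : ℕ} {x y x' y' : MvPolynomial (Fin m) ℂ} (h : Ap n x y) (h' : Ap k x' y') :
    Ap (n + k) (x * x') (y * y') := by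
  obtain ⟨h1, h2, h3⟩ := h
  obtain ⟨g1, g2, g3⟩ := h'
  refine ⟨?_, ?_, ?_⟩
  · exact (h1.mul g1).mono (by omega)
  · exact (h2.mul g2).mono (by omega)
  · have e : x * x' - y * y' = (x - y) * x' + (x' - y') * y := by ring
    rw [e]
    exact (h3.mul g1).add ((g3.mul h2).mono (by omega))

theorem Ap.pow {n : ℕ} {x y : MvPolynomial (Fin m) ℂ} (h : Ap n x y) (k : ℕ) :
    Ap (n * k) (x ^ k) (y ^ k) := by
  induction k with
  | zero => simpa using Ap.one
  | succ k ih => rw [pow_succ, pow_succ, Nat.mul_succ]; exact ih.mul h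

theorem Ap.prod {ι : Type*} (s : Finset ι) (x y : ι → MvPolynomial (Fin m) ℂ) (n : ι → ℕ)
    (h : ∀ i ∈ s, Ap (n i) (x i) (y i)) : Ap (∑ i ∈ s, n i) (∏ i ∈ s, x i) (∏ i ∈ s, y i) := by
  classical
  induction s using Finset.induction_on with
  | empty => simpa using Ap.one
  | insert i s hi ih =>
    rw [Finset.sum_insert hi, Finset.prod_insert hi, Finset.prod_insert hi]
    exact (h i (Finset.mem_insert_self _ _)).mul (ih fun j hj => h j (Finset.mem_insert_of_mem hj))

theorem lt_of_totalDegree {n : ℕ} {f : MvPolynomial (Fin m) ℂ} (h : f.totalDegree < n) : Lt n f := by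
  intro a ha
  have h1 := le_totalDegree (mem_support_iff.2 ha)
  have h2 : (a.sum fun _ e => e) = dg a := by
    rw [Finsupp.sum_fintype _ _ (by simp)]
    rfl
  omega

theorem E_hm (k : Fin m) : Hm (2 * ((k : ℕ) + 1)) (EE m k) := by
  unfold EE
  rw [esymm, map_sum]
  apply Hm.sum
  intro t ht
  rw [Finset.mem_powersetCard] at ht
  rw [map_prod]
  have h := Hm.prod t (fun i => expand 2 (MvPolynomial.X i : MvPolynomial (Fin m) ℂ)) (fun _ => 2)
    (fun i _ => by rw [expand_X]; exact (Hm.X i).pow 2)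
  rw [Finset.sum_const, ht.2, smul_eq_mul, mul_comm] at h
  exact h

/-- weight of an exponent -/
def wd (a : Fin m →₀ ℕ) : ℕ := ∑ k : Fin m, 2 * ((k : ℕ) + 1) * a k

variable {c : Fin m → MvPolynomial (Fin m) ℂ}

theorem c_ap (hc : ∀ k, (c k - EE m k).totalDegree < 2 * ((k : ℕ) + 1)) (k : Fin m) :
    Ap (2 * ((k : ℕ) + 1)) (c k) (EE m k) := by
  have h1 := lt_of_totalDegree (hc k)
  have h2 := (E_hm k).lt (Nat.lt_succ_self _)
  refine ⟨?_, h2, h1⟩
  have : c k = (c k - EE m k) + EE m k := by ring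
  rw [this]
  exact (h1.mono (by omega)).add h2

theorem mon_ap (hc : ∀ k, (c k - EE m k).totalDegree < 2 * ((k : ℕ) + 1)) (a : Fin m →₀ ℕ) :
    Ap (wd a) (∏ k, c k ^ a k) (∏ k, EE m k ^ a k) :=
  Ap.prod Finset.univ _ _ _ fun k _ => (c_ap hc k).pow (a k)

/-- the part of weight `n` -/
def top (n : ℕ) (s : MvPolynomial (Fin m) ℂ) : MvPolynomial (Fin m) ℂ :=
  ∑ a ∈ s.support.filter (fun a => wd a = n), monomial a (coeff a s)

theorem coeff_top (n : ℕ) (s : MvPolynomial (Fin m) ℂ) (a : Fin m →₀ ℕ) :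
    coeff a (top n s) = if wd a = n then coeff a s else 0 := by
  classical
  unfold top
  rw [coeff_sum]
  simp only [coeff_monomial]
  rw [Finset.sum_ite_eq' (s.support.filter (fun a => wd a = n)) a]
  simp only [Finset.mem_filter, mem_support_iff]
  by_cases h : wd a = n
  · by_cases h2 : coeff a s = 0
    · simp [h, h2]
    · simp [h, h2]
  · simp [h]

theorem aeval_sum (g : Fin m → MvPolynomial (Fin m) ℂ) (s : MvPolynomial (Fin m) ℂ) :
    aeval g s = ∑ a ∈ s.support, C (coeff a s) * ∏ k, g k ^ a k := by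
  rw [aeval_def, eval₂_eq']
  rfl

theorem aeval_top (g : Fin m → MvPolynomial (Fin m) ℂ) (n : ℕ) (s : MvPolynomial (Fin m) ℂ) :
    aeval g (top n s) = ∑ a ∈ s.support.filter (fun a => wd a = n), C (coeff a s) * ∏ k, g k ^ a k := by
  unfold top
  rw [map_sum]
  apply Finset.sum_congr rfl
  intro a _
  rw [aeval_monomial, Finsupp.prod_fintype _ _ (by simp)]
  rfl

theorem top_hm (n : ℕ) (s : MvPolynomial (Fin m) ℂ) : Hm n (aeval (EE m) (top n s)) := by
  rw [aeval_top]
  apply Hm.sum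
  intro a ha
  have h1 := (Finset.mem_filter.1 ha).2
  have h2 := (Hm.C (coeff a s)).mul (Hm.prod Finset.univ (fun k => EE m k ^ a k)
    (fun k => 2 * ((k : ℕ) + 1) * a k) fun k _ => (E_hm k).pow (a k))
  rw [zero_add] at h2
  have h3 : ∑ k : Fin m, 2 * ((k : ℕ) + 1) * a k = n := h1
  rw [h3] at h2
  exact h2

theorem top_lt (hc : ∀ k, (c k - EE m k).totalDegree < 2 * ((k : ℕ) + 1)) (n : ℕ)
    (s : MvPolynomial (Fin m) ℂ) (hs : ∀ a, coeff a s ≠ 0 → wd a ≤ n) :
    Lt n (aeval c s - aeval (EE m) (top n s)) := by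
  classical
  rw [aeval_sum c s, aeval_top, ← Finset.sum_filter_add_sum_filter_not s.support (fun a => wd a = n),
    add_sub_right_comm, ← Finset.sum_sub_distrib]
  apply Lt.add
  · apply Lt.sum
    intro a ha
    have h1 := (Finset.mem_filter.1 ha).2
    rw [← mul_sub, mul_comm]
    have h2 := (mon_ap hc a).2.2
    rw [h1] at h2
    exact h2.mul (k := 0) ((Hm.C _).lt (by norm_num))
  · apply Lt.sum
    intro a ha
    have h1 := (Finset.mem_filter.1 ha).2
    have h3 := hs a (mem_support_iff.1 (Finset.mem_filter.1 ha).1)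
    rw [mul_comm]
    have h2 := (mon_ap hc a).1
    exact (h2.mul (k := 0) ((Hm.C _).lt (by norm_num))).mono (by omega)

/-- **independence over the subalgebra generated by the `c k` follows from independence over the
subalgebra of leading forms** -/
theorem indep_top (hc : ∀ k, (c k - EE m k).totalDegree < 2 * ((k : ℕ) + 1)) {ι : Type*} [Fintype ι]
    (g : ι → MvPolynomial (Fin m) ℂ) (d : ι → ℕ) (hg : ∀ i, Hm (d i) (g i))
    (hE : ∀ σ : ι → MvPolynomial (Fin m) ℂ, ∑ i, aeval (EE m) (σ i) * g i = 0 → ∀ i, σ i = 0)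
    (s : ι → MvPolynomial (Fin m) ℂ) (hs : ∑ i, aeval c (s i) * g i = 0) (i : ι) : s i = 0 := by
  classical
  by_contra hne
  obtain ⟨P, hP⟩ : ∃ P : Finset (ι × (Fin m →₀ ℕ)), P = Finset.univ.biUnion fun i =>
    (s i).support.image fun a => (i, a) := ⟨_, rfl⟩
  have hmem : ∀ i a, (i, a) ∈ P ↔ coeff a (s i) ≠ 0 := by
    intro i a
    rw [hP]
    simp [mem_support_iff]
  obtain ⟨a, ha⟩ := ne_zero_iff.1 hne
  have hPne : P.Nonempty := ⟨(i, a), (hmem i a).2 ha⟩
  obtain ⟨⟨i₀, a₀⟩, h0, hmax⟩ := P.exists_max_image (fun p => wd p.2 + d p.1) hPne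
  obtain ⟨D, hD⟩ : ∃ D, D = wd a₀ + d i₀ := ⟨_, rfl⟩
  have hmax' : ∀ i a, coeff a (s i) ≠ 0 → wd a + d i ≤ D := by
    intro i a h
    rw [hD]
    exact hmax (i, a) ((hmem i a).2 h)
  have hzero : ∑ i, aeval (EE m) (if d i ≤ D then top (D - d i) (s i) else 0) * g i = 0 := by
    apply Hm.eq_zero (n := D)
    · apply Hm.sum
      intro i _
      split_ifs with h
      · have := (top_hm (D - d i) (s i)).mul (hg i)
        rwa [Nat.sub_add_cancel h] at this
      · rw [map_zero, zero_mul]; exact Hm.zero D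
    · have e : ∑ i, aeval (EE m) (if d i ≤ D then top (D - d i) (s i) else 0) * g i =
          - ∑ i, (aeval c (s i) - aeval (EE m) (if d i ≤ D then top (D - d i) (s i) else 0)) * g i := by
        simp only [sub_mul, Finset.sum_sub_distrib, hs]
        ring
      rw [e]
      apply Lt.neg
      apply Lt.sum
      intro i _
      by_cases h : d i ≤ D
      · rw [if_pos h]
        have h1 := top_lt hc (D - d i) (s i) fun a ha => by
          have := hmax' i a ha
          omega
        have h2 := h1.mul (k := d i) ((hg i).lt (Nat.lt_succ_self _))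
        rwa [Nat.sub_add_cancel h] at h2
      · have h1 : s i = 0 := by
          ext a
          rw [coeff_zero]
          by_contra hcon
          have := hmax' i a hcon
          omega
        rw [if_neg h, h1, map_zero, map_zero, sub_zero, zero_mul]
        exact Lt.zero D
  have h1 := hE _ hzero i₀
  have hle : d i₀ ≤ D := by omega
  rw [if_pos hle] at h1
  have h2 := congrArg (coeff a₀) h1
  rw [coeff_top, if_pos (by omega), coeff_zero] at h2
  exact (hmem i₀ a₀).1 h0 h2

end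

end Pool.Agent.Q235.FI
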