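import Mathlib
import Pool.Agent.Q235.FI.Gr

set_option autoImplicit false

/-! linear independence over the subalgebra of symmetric polynomials in the squares -/

namespace Pool.Agent.Q235.FI

open MvPolynomial

noncomputable section

variable {m : ℕ}

/-- exponent of a square free monomial -/
def ind (S : Finset (Fin m)) : Fin m →₀ ℕ :=
  Finsupp.equivFunOnFinite.symm fun i => if i ∈ S then 1 else 0

theorem ind_apply (S : Finset (Fin m)) (i : Fin m) : ind S i = if i ∈ S then 1 else 0 := rfl

theorem prod_X (S : Finset (Fin m)) :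
    ∏ i ∈ S, (X i : MvPolynomial (Fin m) ℂ) = monomial (ind S) 1 := by
  rw [monomial_eq, C_1, one_mul, Finsupp.prod_fintype _ _ (by simp)]
  rw [← Finset.prod_subset (Finset.subset_univ S)]
  · apply Finset.prod_congr rfl
    intro i hi
    rw [ind_apply, if_pos hi, pow_one]
  · intro i _ hi
    rw [ind_apply, if_neg hi, pow_zero]

/-- separation by parity -/
theorem parity_sep (G : Finset (Fin m) → MvPolynomial (Fin m) ℂ)
    (h : ∑ S, expand 2 (G S) * ∏ i ∈ S, X i = 0) (S : Finset (Fin m)) : G S = 0 := by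
  classical
  ext a
  rw [coeff_zero]
  have h1 := congrArg (coeff (2 • a + ind S)) h
  rw [coeff_sum, coeff_zero, Finset.sum_eq_single S] at h1
  · rw [prod_X, coeff_mul_monomial', if_pos le_add_self, add_tsub_cancel_right, mul_one,
      coeff_expand_smul 2 two_ne_zero] at h1
    exact h1
  · intro S' _ hS'
    rw [prod_X, coeff_mul_monomial']
    split_ifs with hle
    · rw [mul_one]
      obtain ⟨i, hi⟩ : ∃ i, ¬ (i ∈ S ↔ i ∈ S') := by
        by_contra hcon
        push Not at hcon
        exact hS' (Finset.ext fun i => (hcon i).symm)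
      apply coeff_expand_of_not_dvd (i := i)
      rw [Finsupp.tsub_apply, Finsupp.add_apply, Finsupp.smul_apply, smul_eq_mul, ind_apply,
        ind_apply]
      have hle' := hle i
      rw [Finsupp.add_apply, Finsupp.smul_apply, smul_eq_mul, ind_apply, ind_apply] at hle'
      by_cases h1 : i ∈ S <;> by_cases h2 : i ∈ S' <;> simp only [h1, h2, if_true, if_false] at hle' ⊢
      · exact absurd (iff_of_true h1 h2) hi
      · omega
      · omega
      · exact absurd (iff_of_false h1 h2) hi
    · rfl
  · intro h; exact absurd (Finset.mem_univ S) h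

/-- symmetric polynomials from polynomials in the elementary ones -/
def sym (σ : MvPolynomial (Fin m) ℂ) : MvPolynomial (Fin m) ℂ := (esymmAlgHom (Fin m) ℂ m σ : _)

theorem sym_inj {σ : MvPolynomial (Fin m) ℂ} (h : sym σ = 0) : σ = 0 := by
  apply esymmAlgHom_fin_injective ℂ (le_refl m)
  rw [map_zero]
  exact Subtype.ext h

theorem sym_perm (σ : MvPolynomial (Fin m) ℂ) (e : Equiv.Perm (Fin m)) :
    rename e (sym σ) = sym σ :=
  (mem_symmetricSubalgebra _).1 (esymmAlgHom (Fin m) ℂ m σ).2 e

theorem aeval_E (σ : MvPolynomial (Fin m) ℂ) : aeval (EE m) σ = expand 2 (sym σ) := by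
  have h : (aeval (EE m) : MvPolynomial (Fin m) ℂ →ₐ[ℂ] _) =
      (expand 2).comp ((symmetricSubalgebra (Fin m) ℂ).val.comp (esymmAlgHom (Fin m) ℂ m)) := by
    apply algHom_ext
    intro k
    rw [aeval_X]
    show EE m k = expand 2 ((esymmAlgHom (Fin m) ℂ m (X k) : symmetricSubalgebra (Fin m) ℂ) : _)
    rw [esymmAlgHom, aeval_X]
    rfl
  rw [h]
  rfl

/-- the `2 ^ m + 1` elements -/
def gg (i0 : Fin m) : Option (Finset (Fin m)) → MvPolynomial (Fin m) ℂ
  | none => X i0 ^ 2
  | some S => ∏ i ∈ S, X i

theorem indepE (i0 i1 : Fin m) (h01 : i0 ≠ i1) (σ : Option (Finset (Fin m)) → MvPolynomial (Fin m) ℂ)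
    (h : ∑ i, aeval (EE m) (σ i) * gg i0 i = 0) (i : Option (Finset (Fin m))) : σ i = 0 := by
  classical
  simp only [aeval_E] at h
  rw [Fintype.sum_option] at h
  -- regroup
  have h1 : ∑ S : Finset (Fin m), expand 2 (if S = ∅ then sym (σ (some ∅)) + sym (σ none) * X i0
      else sym (σ (some S))) * ∏ i ∈ S, X i = 0 := by
    rw [← Finset.add_sum_erase _ _ (Finset.mem_univ (∅ : Finset (Fin m))), if_pos rfl,
      Finset.prod_empty, mul_one, map_add, map_mul, expand_X]
    rw [← Finset.add_sum_erase _ _ (Finset.mem_univ (∅ : Finset (Fin m)))] at h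
    simp only [gg, Finset.prod_empty, mul_one] at h
    rw [← h]
    have h2 : ∑ S ∈ Finset.univ.erase (∅ : Finset (Fin m)), expand 2 (if S = ∅ then
        sym (σ (some ∅)) + sym (σ none) * X i0 else sym (σ (some S))) * ∏ i ∈ S, X i =
        ∑ S ∈ Finset.univ.erase (∅ : Finset (Fin m)), expand 2 (sym (σ (some S))) * ∏ i ∈ S, X i := by
      apply Finset.sum_congr rfl
      intro S hS
      rw [if_neg (Finset.ne_of_mem_erase hS)]
    rw [h2]
    ring
  have hG := parity_sep _ h1
  have h2 := hG ∅
  rw [if_pos rfl] at h2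
  have h3 := congrArg (rename (Equiv.swap i0 i1)) h2
  rw [map_add, map_mul, sym_perm, sym_perm, rename_X, Equiv.swap_apply_left, map_zero] at h3
  have h4 : sym (σ none) * (X i0 - X i1) = 0 := by linear_combination h2 - h3
  have h5 : sym (σ none) = 0 := by
    rcases mul_eq_zero.1 h4 with h | h
    · exact h
    · exfalso
      exact h01 (X_injective (sub_eq_zero.1 h))
  rw [h5, zero_mul, add_zero] at h2
  rcases i with _ | S
  · exact sym_inj h5
  · by_cases hS : S = ∅
    · rw [hS]; exact sym_inj h2
    · have h6 := hG S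
      rw [if_neg hS] at h6
      exact sym_inj h6

/-- degrees -/
def gd : Option (Finset (Fin m)) → ℕ
  | none => 2
  | some S => S.card

theorem gg_hm (i0 : Fin m) (i : Option (Finset (Fin m))) : Hm (gd i) (gg i0 i) := by
  rcases i with _ | S
  · exact (Hm.X i0).pow 2
  · have := Hm.prod S (fun i => (X i : MvPolynomial (Fin m) ℂ)) (fun _ => 1) (fun i _ => Hm.X i)
    rw [Finset.sum_const, smul_eq_mul, mul_one] at this
    exact this

end

end Pool.Agent.Q235.FI
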