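import Mathlib

set_option autoImplicit false

/-! square free monomials span modulo an ideal -/

namespace Pool.Agent.Q235.FI

open MvPolynomial

noncomputable section

variable {m : ℕ}

theorem sub_const_mem (c : MvPolynomial (Fin m) ℂ) :
    c - C (constantCoeff c) ∈ Ideal.span (Set.range (X : Fin m → MvPolynomial (Fin m) ℂ)) := by
  induction c using MvPolynomial.induction_on with
  | C a => simp
  | add p r hp hr =>
    have : p + r - C (constantCoeff (p + r)) = (p - C (constantCoeff p)) +
        (r - C (constantCoeff r)) := by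
      rw [map_add, map_add]; ring
    rw [this]
    exact Ideal.add_mem _ hp hr
  | mul_X p i _ =>
    rw [map_mul, constantCoeff_X, mul_zero, C_0, sub_zero]
    exact Ideal.mul_mem_left _ _ (Ideal.subset_span ⟨i, rfl⟩)

theorem prod_mem_pow {R : Type*} [CommRing R] {ι : Type*} (J : Ideal R) (y : ι → R)
    (hy : ∀ i, y i ∈ J) (s : Finset ι) (a : ι → ℕ) :
    ∏ i ∈ s, y i ^ a i ∈ J ^ (∑ i ∈ s, a i) := by
  classical
  induction s using Finset.induction_on with
  | empty => simp
  | insert i s hi ih =>
    rw [Finset.prod_insert hi, Finset.sum_insert hi, pow_add]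
    exact Ideal.mul_mem_mul (Ideal.pow_mem_pow (hy i) _) ih

theorem span_mod (I : Ideal (MvPolynomial (Fin m) ℂ)) (y : Fin m → MvPolynomial (Fin m) ℂ)
    (hy : Ideal.span (Set.range y) = Ideal.span (Set.range (X : Fin m → MvPolynomial (Fin m) ℂ)))
    (hsq : ∀ k, y k ^ 2 ∈ I ⊔ Ideal.span (Set.range y) ^ 3) (N : ℕ)
    (hN : Ideal.span (Set.range y) ^ N ≤ I) (f : MvPolynomial (Fin m) ℂ) :
    f ∈ Submodule.span ℂ (Set.range fun S : Finset (Fin m) => ∏ k ∈ S, y k) ⊔
      I.restrictScalars ℂ := by
  classical
  set J := Ideal.span (Set.range y) with hJ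
  set W : Submodule ℂ (MvPolynomial (Fin m) ℂ) :=
    Submodule.span ℂ (Set.range fun S : Finset (Fin m) => ∏ k ∈ S, y k) ⊔
      I.restrictScalars ℂ with hW
  have hyJ : ∀ k, y k ∈ J := fun k => Ideal.subset_span ⟨k, rfl⟩
  have hIW : ∀ x ∈ I, x ∈ W := fun x hx => Submodule.mem_sup_right hx
  have step : ∀ n, (∀ x ∈ J ^ (n + 1), x ∈ W) → ∀ x ∈ J ^ n, x ∈ W := by
    intro n hn x hx
    obtain ⟨p, hp, rfl⟩ := (Ideal.mem_span_pow_iff_exists_isHomogeneous y x).1 hx
    rw [eval_eq']
    refine Submodule.sum_mem _ fun a ha => ?_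
    have hdeg : ∑ i, a i = n := by
      have h1 := hp (mem_support_iff.1 ha)
      rw [← h1, Finsupp.weight_apply, Finsupp.sum_fintype _ _ (by simp)]
      simp
    have hmem : ∏ i, y i ^ a i ∈ J ^ n := by
      have := prod_mem_pow J y hyJ Finset.univ a
      rwa [hdeg] at this
    have hya : ∏ i, y i ^ a i ∈ W := by
      by_cases hle : ∀ k, a k ≤ 1
      · apply Submodule.mem_sup_left
        apply Submodule.subset_span
        refine ⟨Finset.univ.filter fun k => a k = 1, ?_⟩
        show ∏ k ∈ Finset.univ.filter (fun k => a k = 1), y k = _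
        rw [Finset.prod_filter]
        apply Finset.prod_congr rfl
        intro k _
        have := hle k
        split_ifs with h
        · rw [h, pow_one]
        · have : a k = 0 := by omega
          rw [this, pow_zero]
      · push Not at hle
        obtain ⟨k, hk⟩ := hle
        obtain ⟨F, hF, h, hh, hFh⟩ := Submodule.mem_sup.1 (hsq k)
        have e1 : ∏ i, y i ^ a i = y k ^ 2 * (y k ^ (a k - 2) *
            ∏ i ∈ Finset.univ.erase k, y i ^ a i) := by
          rw [← mul_assoc, ← pow_add, show 2 + (a k - 2) = a k by omega,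
            Finset.mul_prod_erase _ (fun i => y i ^ a i) (Finset.mem_univ k)]
        have e2 : y k ^ (a k - 2) * ∏ i ∈ Finset.univ.erase k, y i ^ a i ∈ J ^ (n - 2) := by
          have h1 := Ideal.mul_mem_mul (Ideal.pow_mem_pow (hyJ k) (a k - 2))
            (prod_mem_pow J y hyJ (Finset.univ.erase k) a)
          rw [← pow_add] at h1
          have h2 : a k - 2 + ∑ i ∈ Finset.univ.erase k, a i = n - 2 := by
            have h3 := Finset.add_sum_erase Finset.univ a (Finset.mem_univ k)
            omega
          rwa [h2] at h1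
        rw [e1, ← hFh, add_mul]
        refine Submodule.add_mem _ (hIW _ (Ideal.mul_mem_right _ _ hF)) (hn _ ?_)
        have h2 := Ideal.mul_mem_mul hh e2
        rw [← pow_add] at h2
        have h3 : 3 + (n - 2) = n + 1 := by
          have h4 : a k ≤ n := by
            rw [← hdeg]
            exact Finset.single_le_sum (f := fun i => a i) (fun i _ => Nat.zero_le _)
              (Finset.mem_univ k)
          omega
        rwa [h3] at h2
    have e3 : coeff a p * ∏ i, y i ^ a i = (constantCoeff (coeff a p)) • ∏ i, y i ^ a i +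
        (coeff a p - C (constantCoeff (coeff a p))) * ∏ i, y i ^ a i := by
      rw [smul_eq_C_mul]; ring
    rw [e3]
    refine Submodule.add_mem _ (Submodule.smul_mem _ _ hya) (hn _ ?_)
    rw [pow_succ']
    apply Ideal.mul_mem_mul _ hmem
    have h5 := sub_const_mem (coeff a p)
    rw [← hy] at h5
    exact h5
  have down : ∀ n ≤ N, ∀ x ∈ J ^ (N - n), x ∈ W := by
    intro n
    induction n with
    | zero => intro _ x hx; exact hIW x (hN hx)
    | succ n ih =>
      intro hn x hx
      apply step _ _ x hx
      rw [show N - (n + 1) + 1 = N - n by omega]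
      exact ih (by omega)
  have := down N le_rfl f
  rw [Nat.sub_self, pow_zero, Ideal.one_eq_top] at this
  exact this trivial

/-- the Nullstellensatz -/
theorem null (I : Ideal (MvPolynomial (Fin m) ℂ))
    (hI : ∀ a : Fin m → ℂ, (∀ f ∈ I, eval a f = 0) → a = 0) :
    ∃ N, Ideal.span (Set.range (X : Fin m → MvPolynomial (Fin m) ℂ)) ^ N ≤ I := by
  apply Ideal.exists_pow_le_of_le_radical_of_fg
  · rw [Ideal.span_le]
    rintro _ ⟨i, rfl⟩
    show X i ∈ I.radical
    rw [← vanishingIdeal_zeroLocus_eq_radical (K := ℂ) I, mem_vanishingIdeal_iff]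
    intro a ha
    rw [mem_zeroLocus_iff] at ha
    have h0 := hI a fun f hf => by
      have := ha f hf
      rwa [aeval_eq_eval] at this
    rw [h0]
    simp
  · exact ⟨Finset.univ.image X, by simp⟩

end

end Pool.Agent.Q235.FI
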