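import Mathlib
import Pool.Agent.Q235.FI.Ind
import Pool.Agent.Q235.FI.Spn
import Pool.Agent.Q235.FI.Dft

set_option autoImplicit false

/-! the polynomial ring as a module over the subalgebra generated by the coefficients -/

namespace Pool.Agent.Q235.FI

open MvPolynomial

noncomputable section

variable {m : ℕ}

/-- the polynomial ring as a module via `c` -/
def TM (_ : Fin m → MvPolynomial (Fin m) ℂ) : Type := MvPolynomial (Fin m) ℂ

instance (c : Fin m → MvPolynomial (Fin m) ℂ) : AddCommGroup (TM c) :=
  inferInstanceAs (AddCommGroup (MvPolynomial (Fin m) ℂ))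

instance (c : Fin m → MvPolynomial (Fin m) ℂ) : Module (MvPolynomial (Fin m) ℂ) (TM c) :=
  Module.compHom (MvPolynomial (Fin m) ℂ) (aeval c : MvPolynomial (Fin m) ℂ →ₐ[ℂ] _).toRingHom

/-- the identity as an additive map -/
def tm (c : Fin m → MvPolynomial (Fin m) ℂ) : MvPolynomial (Fin m) ℂ →+ TM c := AddMonoidHom.id _

variable {c : Fin m → MvPolynomial (Fin m) ℂ}

theorem tm_smul (s f : MvPolynomial (Fin m) ℂ) : s • tm c f = tm c (aeval c s * f) := rfl

theorem tm_inj {f : MvPolynomial (Fin m) ℂ} (h : tm c f = 0) : f = 0 := h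

/-- multiplication is linear over the small ring -/
def mulL (c : Fin m → MvPolynomial (Fin m) ℂ) (z : MvPolynomial (Fin m) ℂ) :
    TM c →ₗ[MvPolynomial (Fin m) ℂ] TM c where
  toFun := fun f => tm c (z * (show MvPolynomial (Fin m) ℂ from f))
  map_add' := fun f g => by
    have h : z * ((show MvPolynomial (Fin m) ℂ from f) + (show MvPolynomial (Fin m) ℂ from g)) =
      z * (show MvPolynomial (Fin m) ℂ from f) + z * (show MvPolynomial (Fin m) ℂ from g) := mul_add _ _ _
    exact congrArg (tm c) h
  map_smul' := fun r f => by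
    have h : z * (aeval c r * (show MvPolynomial (Fin m) ℂ from f)) =
      aeval c r * (z * (show MvPolynomial (Fin m) ℂ from f)) := by ring
    exact congrArg (tm c) h

theorem root (i : Fin m) : ∑ j ∈ Finset.range (m + 1),
    expand 2 (esymm (Fin m) ℂ j) * (-(X i) ^ 2) ^ (m - j) = 0 := by
  have h := prod_C_add_X_eq_sum_esymm ℂ (Fin m)
  have h1 := congrArg (fun P => Polynomial.eval (-(X i : MvPolynomial (Fin m) ℂ)) P) h
  simp only [Polynomial.eval_prod, Polynomial.eval_finsetSum, Polynomial.eval_mul,
    Polynomial.eval_pow, Polynomial.eval_add, Polynomial.eval_X, Polynomial.eval_C,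
    Fintype.card_fin] at h1
  rw [Finset.prod_eq_zero (Finset.mem_univ i) (by ring)] at h1
  have h2 := congrArg (expand 2) h1
  rw [map_zero, map_sum] at h2
  rw [h2]
  apply Finset.sum_congr rfl
  intro j _
  rw [map_mul, map_pow, map_neg, expand_X]

/-- **finiteness** -/
theorem fin_TM (hc : ∀ k, (c k - EE m k).totalDegree < 2 * ((k : ℕ) + 1)) :
    ∃ s : Finset (TM c), Submodule.span (MvPolynomial (Fin m) ℂ) (s : Set (TM c)) = ⊤ := by
  classical
  obtain ⟨B, hB⟩ : ∃ B : Finset (TM c), B = (Finset.univ : Finset (Fin m → Fin (2 * m))).image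
    fun a => tm c (∏ i, X i ^ (a i : ℕ)) := ⟨_, rfl⟩
  refine ⟨B, ?_⟩
  set G := Submodule.span (MvPolynomial (Fin m) ℂ) (B : Set (TM c)) with hG
  have key : ∀ n, ∀ f : MvPolynomial (Fin m) ℂ, Lt n f → tm c f ∈ G := by
    intro n
    induction n with
    | zero =>
      intro f hf
      have : f = 0 := by
        ext a
        rw [coeff_zero]
        by_contra h
        exact absurd (hf a h) (Nat.not_lt_zero _)
      rw [this, map_zero]
      exact G.zero_mem
    | succ n ih =>
      intro f hf
      rw [as_sum f, map_sum]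
      refine Submodule.sum_mem _ fun a ha => ?_
      have hda := hf a (mem_support_iff.1 ha)
      -- reduce to coefficient one
      have hC : tm c (monomial a (coeff a f)) = (C (coeff a f) : MvPolynomial (Fin m) ℂ) •
          tm c (∏ i, X i ^ a i) := by
        rw [tm_smul, aeval_C]
        congr 1
        rw [monomial_eq, Finsupp.prod_fintype _ _ (by simp)]
        rfl
      rw [hC]
      apply Submodule.smul_mem
      by_cases hsmall : ∀ i, a i < 2 * m
      · apply Submodule.subset_span
        rw [hB]
        simp only [Finset.coe_image, Finset.coe_univ, Set.image_univ, Set.mem_range]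
        exact ⟨fun i => ⟨a i, hsmall i⟩, rfl⟩
      · push Not at hsmall
        obtain ⟨i, hi⟩ := hsmall
        have hm := i.isLt
        obtain ⟨r, hr⟩ : ∃ r : MvPolynomial (Fin m) ℂ, r = X i ^ (a i - 2 * m) *
          ∏ j ∈ Finset.univ.erase i, X j ^ a j := ⟨_, rfl⟩
        have hsum := Finset.add_sum_erase Finset.univ (fun i => a i) (Finset.mem_univ i)
        have hdg : dg a ≤ n := by omega
        have hdg' : dg a = a i + ∑ j ∈ Finset.univ.erase i, a j := hsum.symm
        have hrd : Hm (dg a - 2 * m) r := by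
          rw [hr]
          have h1 := ((Hm.X i).pow (a i - 2 * m)).mul (Hm.prod (Finset.univ.erase i)
            (fun j => (X j : MvPolynomial (Fin m) ℂ) ^ a j) (fun j => 1 * a j)
            (fun j _ => (Hm.X j).pow (a j)))
          simp only [one_mul] at h1
          rw [hdg']
          rwa [show a i + ∑ j ∈ Finset.univ.erase i, a j - 2 * m =
            a i - 2 * m + ∑ j ∈ Finset.univ.erase i, a j by omega]
        have e1 : (∏ j, X j ^ a j : MvPolynomial (Fin m) ℂ) = X i ^ (2 * m) * r := by
          rw [hr, ← mul_assoc, ← pow_add, show 2 * m + (a i - 2 * m) = a i by omega,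
            Finset.mul_prod_erase _ (fun j => (X j : MvPolynomial (Fin m) ℂ) ^ a j)
              (Finset.mem_univ i)]
        have e2 : (X i : MvPolynomial (Fin m) ℂ) ^ (2 * m) = (-1) ^ (m + 1) *
            ∑ k : Fin m, EE m k * (-(X i) ^ 2) ^ (m - (k + 1)) := by
          have h1 := root i
          rw [Finset.sum_range_succ', Finset.sum_range] at h1
          have h2 : expand 2 (esymm (Fin m) ℂ 0) * (-(X i : MvPolynomial (Fin m) ℂ) ^ 2) ^ (m - 0) =
              (-1) ^ m * X i ^ (2 * m) := by
            rw [esymm_zero, map_one, one_mul, Nat.sub_zero, neg_pow, ← pow_mul]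
          rw [h2] at h1
          have h3 : (-1 : MvPolynomial (Fin m) ℂ) ^ m * (-1) ^ m = 1 := by
            rw [← pow_add]; exact (Even.add_self m).neg_one_pow
          have h4 : ∑ k : Fin m, expand 2 (esymm (Fin m) ℂ (k + 1)) *
              (-(X i : MvPolynomial (Fin m) ℂ) ^ 2) ^ (m - (k + 1)) =
              ∑ k : Fin m, EE m k * (-(X i) ^ 2) ^ (m - (k + 1)) := rfl
          rw [h4] at h1
          rw [pow_succ (-1 : MvPolynomial (Fin m) ℂ) m]
          linear_combination (-1) ^ m * h1 - (X i : MvPolynomial (Fin m) ℂ) ^ (2 * m) * h3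
        have e3 : X i ^ (2 * m) * r = ∑ k : Fin m, (c k * ((-1) ^ (m + 1) *
            (-(X i) ^ 2) ^ (m - (k + 1)) * r) - (c k - EE m k) * ((-1) ^ (m + 1) *
            (-(X i) ^ 2) ^ (m - (k + 1)) * r)) := by
          rw [e2, Finset.mul_sum, Finset.sum_mul]
          apply Finset.sum_congr rfl
          intro k _
          ring
        rw [e1, e3, map_sum]
        refine Submodule.sum_mem _ fun k _ => ?_
        have hk := k.isLt
        have hs : Hm (2 * (m - (k + 1)) + (dg a - 2 * m)) ((-1) ^ (m + 1) *
            (-(X i) ^ 2) ^ (m - (k + 1)) * r) := by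
          have h1 : (-1 : MvPolynomial (Fin m) ℂ) ^ (m + 1) * (-(X i) ^ 2) ^ (m - (k + 1)) =
              C ((-1) ^ (m + 1) * (-1) ^ (m - (k + 1))) * (X i ^ 2) ^ (m - (k + 1)) := by
            rw [neg_pow ((X i : MvPolynomial (Fin m) ℂ) ^ 2)]
            simp
            ring
          rw [h1]
          have h2 := ((Hm.C (m := m) ((-1) ^ (m + 1) * (-1) ^ (m - ((k : ℕ) + 1)))).mul
            (((Hm.X i).pow 2).pow (m - (k + 1)))).mul hrd
          simpa using h2
        rw [map_sub]
        apply Submodule.sub_mem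
        · have h1 : tm c (c k * ((-1) ^ (m + 1) * (-(X i) ^ 2) ^ (m - (k + 1)) * r)) =
              (X k : MvPolynomial (Fin m) ℂ) • tm c ((-1) ^ (m + 1) *
                (-(X i) ^ 2) ^ (m - (k + 1)) * r) := by
            rw [tm_smul, aeval_X]
          rw [h1]
          apply Submodule.smul_mem
          exact ih _ (hs.lt (by omega))
        · apply ih
          have h1 := (lt_of_totalDegree (hc k)).mul (hs.lt (Nat.lt_succ_self _))
          exact h1.mono (by omega)
  rw [eq_top_iff]
  intro f _
  have : Lt (MvPolynomial.totalDegree (f : MvPolynomial (Fin m) ℂ) + 1) f :=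
    lt_of_totalDegree (Nat.lt_succ_self _)
  exact key _ _ this

/-- **the zero set is not a point** -/
theorem contra (hc : ∀ k, (c k - EE m k).totalDegree < 2 * ((k : ℕ) + 1)) (hm : 2 ≤ m)
    (y : Fin m → MvPolynomial (Fin m) ℂ)
    (hsp : ∀ f : MvPolynomial (Fin m) ℂ, f ∈ Submodule.span ℂ
      (Set.range fun S : Finset (Fin m) => ∏ k ∈ S, y k) ⊔
      (Ideal.span (Set.range c)).restrictScalars ℂ) : False := by
  classical
  obtain ⟨s, hs⟩ := fin_TM hc
  obtain ⟨B, hB⟩ : ∃ B : Set (TM c), B = Set.range fun S : Finset (Fin m) => tm c (∏ k ∈ S, y k) :=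
    ⟨_, rfl⟩
  set N := Submodule.span (MvPolynomial (Fin m) ℂ) B with hN
  set t : Ideal (MvPolynomial (Fin m) ℂ) := Ideal.span (Set.range X) with ht
  have htop : (⊤ : Submodule (MvPolynomial (Fin m) ℂ) (TM c)) ≤ N ⊔ t • ⊤ := by
    intro f _
    obtain ⟨g, hg, h, hh, hgh⟩ := Submodule.mem_sup.1 (hsp f)
    have h1 : tm c g ∈ N := by
      refine Submodule.span_induction (p := fun x _ => tm c x ∈ N) ?_ ?_ ?_ ?_ hg
      · rintro x ⟨S, rfl⟩
        apply Submodule.subset_span
        rw [hB]
        exact ⟨S, rfl⟩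
      · rw [map_zero]; exact N.zero_mem
      · intro x x' _ _ hx hx'
        rw [map_add]; exact N.add_mem hx hx'
      · intro z x _ hx
        have : tm c (z • x) = (C z : MvPolynomial (Fin m) ℂ) • tm c x := by
          rw [tm_smul, aeval_C, smul_eq_C_mul]
          rfl
        rw [this]
        exact N.smul_mem _ hx
    have h2 : tm c h ∈ t • (⊤ : Submodule (MvPolynomial (Fin m) ℂ) (TM c)) := by
      have hh' : h ∈ Ideal.span (Set.range c) := hh
      refine Submodule.span_induction (p := fun x _ => tm c x ∈ t • ⊤) ?_ ?_ ?_ ?_ hh'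
      · rintro x ⟨k, rfl⟩
        have : tm c (c k) = (X k : MvPolynomial (Fin m) ℂ) • tm c 1 := by
          rw [tm_smul, aeval_X, mul_one]
        rw [this]
        exact Submodule.smul_mem_smul (Ideal.subset_span ⟨k, rfl⟩) trivial
      · rw [map_zero]; exact Submodule.zero_mem _
      · intro x x' _ _ hx hx'
        rw [map_add]; exact Submodule.add_mem _ hx hx'
      · intro z x _ hx
        have h3 : tm c (z • x) = mulL c z (tm c x) := rfl
        rw [h3]
        have h4 : Submodule.map (mulL c z) (t • ⊤) ≤ t • ⊤ := by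
          rw [Submodule.map_smul'']
          exact Submodule.smul_mono le_rfl le_top
        exact h4 (Submodule.mem_map_of_mem hx)
    have h3 : f = tm c g + tm c h := by
      rw [← map_add, hgh]
      rfl
    rw [h3]
    exact Submodule.add_mem_sup h1 h2
  obtain ⟨r, hr1, hr2⟩ := Submodule.exists_sub_one_mem_and_smul_le_of_fg_of_le_sup
    (I := t) (N := N) (N' := ⊤) (P := ⊤) ⟨s, hs⟩ le_rfl htop
  have hr0 : r ≠ 0 := by
    rintro rfl
    have h1 : constantCoeff ((0 : MvPolynomial (Fin m) ℂ) - 1) = 0 := by
      have : t ≤ RingHom.ker (constantCoeff (σ := Fin m) (R := ℂ)) := by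
        rw [ht, Ideal.span_le]
        rintro _ ⟨i, rfl⟩
        show constantCoeff (X i) = 0
        simp
      exact this hr1
    simp at h1
  let i0 : Fin m := ⟨0, by omega⟩
  let i1 : Fin m := ⟨1, by omega⟩
  have h01 : i0 ≠ i1 := by
    intro h
    have := congrArg Fin.val h
    simp [i0, i1] at this
  have hli : LinearIndependent (MvPolynomial (Fin m) ℂ)
      (fun i : Option (Finset (Fin m)) => r • tm c (gg i0 i)) := by
    rw [Fintype.linearIndependent_iff]
    intro σ hσ i
    have h1 : ∑ i, aeval c (σ i * r) * gg i0 i = 0 := by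
      apply tm_inj (c := c)
      rw [map_sum, ← hσ]
      apply Finset.sum_congr rfl
      intro i _
      rw [smul_smul, tm_smul]
    have h2 := indep_top hc (gg i0) gd (gg_hm i0) (indepE i0 i1 h01) (fun i => σ i * r) h1 i
    exact (mul_eq_zero.1 h2).resolve_right hr0
  have hfB : Fintype B := by
    rw [hB]
    exact Set.fintypeRange _
  have hcard := linearIndependent_le_span' _ hli B (by
    rintro _ ⟨i, rfl⟩
    apply hr2
    exact Submodule.smul_mem_pointwise_smul _ r ⊤ trivial)
  have hB2 : Fintype.card B ≤ 2 ^ m := by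
    have h1 : Fintype.card B = (Set.toFinset B).card := (Set.toFinset_card B).symm
    rw [h1]
    have h2 : Set.toFinset B = Finset.univ.image fun S : Finset (Fin m) => tm c (∏ k ∈ S, y k) := by
      ext x
      rw [Set.mem_toFinset, hB]
      simp
    rw [h2]
    refine Finset.card_image_le.trans ?_
    simp
  rw [Cardinal.mk_fintype, Nat.cast_le, Fintype.card_option] at hcard
  simp only [Fintype.card_finset, Fintype.card_fin] at hcard
  omega

end

end Pool.Agent.Q235.FI
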