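import Mathlib
import Pool.Agent.Q235.FI.Mod

set_option autoImplicit false

/-! the main theorem -/

namespace Pool.Agent.Q235.FI

open MvPolynomial

noncomputable section

theorem exists_pt {m q : ℕ} (hm : 2 ≤ m) (hq : q = 2 * m ∨ q = 2 * m + 1) :
    ∃ a : Fin m → ℂ, a ≠ 0 ∧ ∀ f ∈ Ideal.span (Set.range (cc m q)), eval a f = 0 := by
  by_contra hcon
  push Not at hcon
  have hI : ∀ a : Fin m → ℂ, (∀ f ∈ Ideal.span (Set.range (cc m q)), eval a f = 0) → a = 0 := by
    intro a ha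
    by_contra hne
    obtain ⟨f, hf, hf2⟩ := hcon a hne
    exact hf2 (ha f hf)
  obtain ⟨N, hN⟩ := null _ hI
  have hz := Complex.isPrimitiveRoot_exp (2 * q) (by omega)
  obtain ⟨z, hzd⟩ : ∃ z : ℂ, z = Complex.exp (2 * Real.pi * Complex.I / ((2 * q : ℕ) : ℂ)) :=
    ⟨_, rfl⟩
  rw [← hzd] at hz
  have hw : IsPrimitiveRoot (z ^ 2) q := hz.pow (by omega) rfl
  refine contra (fun k => cc_top (by omega) hq k) hm (yy m q (z ^ 2)) fun f => ?_
  exact span_mod _ (yy m q (z ^ 2)) (span_eq hq hw) (fun k => yy_sq (by omega) hq hz k) N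
    (by rw [span_eq hq hw]; exact hN) f

theorem main (q : ℕ) (hq : 3 < q) : ∃ v : ℕ → ℂ, (∃ j < q, v j ≠ 0) ∧
    (∀ j < q, v j = - v (q - 1 - j)) ∧
    ∀ z : ℂ, z ≠ 0 → (FL.Lz q (fun i => v i) z z⁻¹).charpoly =
      (FL.Lz q (fun _ => 0) z z⁻¹).charpoly := by
  obtain ⟨m, hm⟩ : ∃ m, q = 2 * m ∨ q = 2 * m + 1 := ⟨q / 2, by omega⟩
  obtain ⟨a, ha0, ha⟩ := exists_pt (m := m) (q := q) (by omega) hm
  refine ⟨fun j => eval a (U m q j), ?_, ?_, ?_⟩
  · obtain ⟨i, hi⟩ : ∃ i, a i ≠ 0 := by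
      by_contra h
      push Not at h
      exact ha0 (funext h)
    have hlt := i.isLt
    refine ⟨i, by omega, ?_⟩
    show eval a (U m q i) ≠ 0
    unfold U
    rw [dif_pos hlt, map_mul, eval_C, eval_X]
    exact mul_ne_zero Complex.I_ne_zero hi
  · intro j hj
    show eval a (U m q j) = - eval a (U m q (q - 1 - j))
    rw [U_anti hm j hj, map_neg]
  · intro z hz
    refine FL.link (q := q) (by omega) (fun j => eval a (U m q j)) (fun x => ?_) hz
    have h1 : (DF m q).map (eval a) = 0 := by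
      ext i
      rw [Polynomial.coeff_map, Polynomial.coeff_zero]
      exact ha _ (DF_coeff (by omega) hm i)
    have h2 : DD (fun j => eval a (U m q j)) q = DD (fun _ => (0 : ℂ)) q := by
      unfold DF at h1
      rw [Polynomial.map_sub, map_DD, map_DD, sub_eq_zero] at h1
      rw [h1]
      congr 1
    have h3 := eval_DD (fun j => eval a (U m q j)) q x
    have h4 := eval_DD (fun _ => (0 : ℂ)) q x
    rw [← h3, ← h4, h2]

end

end Pool.Agent.Q235.FI
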